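import Mathlib

/-! The determinant of a vector bundle around a triangle. -/

set_option autoImplicit false

namespace Pool.Agent.Ptt

open Function Fintype

section
variable {R E F P X Y ι κ : Type} [CommRing R] [CommRing E] [CommRing F] [AddCommGroup P]
  [Module R P] [Fintype ι] [DecidableEq ι] [Fintype κ] [DecidableEq κ]

/-- a frame of `P` on the open set `u ≠ 0` -/
structure Fr (h : P →ₗ[R] ι → R) (h' : (ι → R) →ₗ[R] P) (u : R) : Prop where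
  l : ∀ m, h' (h m) = u • m
  r : ∀ v, h (h' v) = u • v

def D (h : P →ₗ[R] ι → R) (m : ι → P) : R := (Matrix.of fun l => h (m l)).det

def bs (h' : (ι → R) →ₗ[R] P) (l : ι) : P := h' (Pi.single l 1)

theorem eq_sum (h' : (ι → R) →ₗ[R] P) (v : ι → R) : h' v = ∑ l, v l • bs h' l := by
  conv_lhs => rw [pi_eq_sum_univ' v]
  simp only [map_sum, map_smul, bs]

theorem D_mul (h : P →ₗ[R] ι → R) {g : P →ₗ[R] κ → R} {g' : (κ → R) →ₗ[R] P} {u : R}
    (hg : Fr g g' u) (e : ι ≃ κ) (m : κ → P) :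
    u ^ card κ * D h (m ∘ e) = D h (bs g' ∘ e) * D g m := by
  unfold D
  rw [← card_congr e, ← Matrix.det_smul, mul_comm, ← Matrix.det_submatrix_equiv_self e,
    ← Matrix.det_mul]
  refine congrArg Matrix.det (Matrix.ext fun l j => ?_)
  have := congrArg (fun x => h x j) (hg.l (m (e l)))
  simp only [eq_sum g', map_sum, map_smul, Finset.sum_apply, Pi.smul_apply, smul_eq_mul] at this
  simp only [Matrix.smul_apply, Matrix.of_apply, comp_apply, smul_eq_mul, Matrix.mul_apply,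
    Matrix.submatrix_apply, ← this]
  exact (e.sum_comp fun x => g (m (e l)) x * h (bs g' x) j).symm

theorem Fr.D_bs {h : P →ₗ[R] ι → R} {h' : (ι → R) →ₗ[R] P} {u : R} (hh : Fr h h' u) :
    D h (bs h') = u ^ card ι := by
  have : (Matrix.of fun l => h (bs h' l)) = u • (1 : Matrix ι ι R) := by
    ext l j
    simp [bs, hh.r, Matrix.one_apply, Pi.single_apply, eq_comm]
  rw [D, this, Matrix.det_smul, Matrix.det_one, mul_one]

theorem card_le [IsDomain E] (ψ : R →+* E) {h : P →ₗ[R] ι → R} {h' : (ι → R) →ₗ[R] P} {u : R}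
    (hh : Fr h h' u) {g : P →ₗ[R] κ → R} {g' : (κ → R) →ₗ[R] P} {v : R} (hg : Fr g g' v)
    (hu : ψ u ≠ 0) (hv : ψ v ≠ 0) : card ι ≤ card κ := by
  have e : LinearMap.toMatrix' (h ∘ₗ g') * LinearMap.toMatrix' (g ∘ₗ h') = (v * u) • 1 := by
    rw [← LinearMap.toMatrix'_comp, ← LinearMap.toMatrix'_id, ← map_smul]
    refine congrArg _ (LinearMap.ext fun x => ?_)
    simp [hg.l, hh.r, mul_smul]
  refine card_le_of_injective E ((LinearMap.toMatrix' (g ∘ₗ h')).map ψ).mulVecLin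
    ((injective_iff_map_eq_zero _).2 fun x hx => ?_)
  have := congrArg ((LinearMap.toMatrix' (h ∘ₗ g')).map ψ).mulVec hx
  rw [Matrix.mulVecLin_apply, Matrix.mulVec_mulVec, ← Matrix.map_mul, e, Matrix.mulVec_zero] at this
  funext j
  have := congrFun this j
  simp [Matrix.mulVec, dotProduct, Matrix.one_apply, apply_ite ψ, hu, hv] at this
  exact this

/-- `ω` transforms like a determinant -/
def Exp (ψ : R →+* E) (ω : (ι → P) → E) : Prop :=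
  ∀ (κ : Type) [Fintype κ] [DecidableEq κ] (e : ι ≃ κ) (g : P →ₗ[R] κ → R) (g' : (κ → R) →ₗ[R] P)
    (u : R), Fr g g' u → ∀ m : κ → P, ψ u ^ card κ * ω (m ∘ e) = ω (bs g' ∘ e) * ψ (D g m)

theorem exp_of [IsDomain E] {ψ : R →+* E} {ω : (ι → P) → E} (h : P →ₗ[R] ι → R) {c c' : E}
    (hc : c' ≠ 0) (H : ∀ m, c' * ω m = c * ψ (D h m)) : Exp ψ ω := by
  intro κ _ _ e g g' u hg m
  have := congrArg ψ (D_mul h hg e m)
  rw [map_mul, map_mul, map_pow] at this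
  refine mul_left_cancel₀ hc ?_
  rw [mul_left_comm, H, ← mul_assoc c', H, mul_left_comm, this, mul_assoc]

def Uni (α : X → E) : Prop := ∀ 𝔪 : Ideal E, 𝔪.IsPrime → ∃ x, α x ∉ 𝔪

theorem Uni.unit {α β : X → E} {μ : E} (h : Uni α) (e : ∀ x, α x = μ * β x) : IsUnit μ := by
  by_contra hμ
  obtain ⟨𝔪, h1, h2⟩ := exists_max_ideal_of_mem_nonunits hμ
  obtain ⟨x, hx⟩ := h 𝔪 h1.isPrime
  exact hx (e x ▸ 𝔪.mul_mem_right _ h2)

theorem ratio [IsDomain E] {α β d : X → E} {c c' a b : E} (hc : c ≠ 0) (hc' : c' ≠ 0)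
    (h : ∀ x, c * α x = a * d x) (h' : ∀ x, c' * β x = b * d x) (hβ : Uni β) :
    ∃ μ, ∀ x, α x = μ * β x := by
  have top : Ideal.span (Set.range β) = ⊤ := by
    by_contra hn
    obtain ⟨𝔪, h1, h2⟩ := Ideal.exists_le_maximal _ hn
    obtain ⟨x, hx⟩ := hβ 𝔪 h1.isPrime
    exact hx (h2 (Ideal.subset_span ⟨x, rfl⟩))
  have key : ∀ z ∈ Ideal.span (Set.range β), ∃ μ, ∀ x, z * α x = μ * β x := by
    intro z hz
    induction hz using Submodule.span_induction with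
    | mem z hz =>
      obtain ⟨y, rfl⟩ := hz
      refine ⟨α y, fun x => mul_left_cancel₀ (mul_ne_zero hc hc') ?_⟩
      linear_combination c' * β y * h x + a * d x * h' y - c' * β x * h y - a * d y * h' x
    | zero => exact ⟨0, fun x => by simp⟩
    | add y z _ _ hy hz =>
      obtain ⟨μ, hy⟩ := hy
      obtain ⟨ν, hz⟩ := hz
      exact ⟨μ + ν, fun x => by rw [add_mul, add_mul, hy, hz]⟩
    | smul r z _ hz =>
      obtain ⟨ν, hz⟩ := hz
      exact ⟨r * ν, fun x => by rw [smul_eq_mul, mul_assoc, hz, mul_assoc]⟩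
  simpa using key 1 (top ▸ trivial)

end

/-- three edges and three vertices -/
structure Tri (R E F : Type) [CommRing R] [CommRing E] [CommRing F] where
  e : Fin 3 → R →+* E
  s : E →+* F
  t : E →+* F
  st : ∀ i r, t (e i r) = s (e (i + 1) r)

variable {R E F P X Y ι κ : Type} [CommRing R] [CommRing E] [CommRing F] [AddCommGroup P]
  [Module R P] [Fintype ι] [DecidableEq ι] [Fintype κ] [DecidableEq κ] (𝒯 : Tri R E F)

def Dat (ω : Fin 3 → X → E) (δ : F) : Prop :=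
  (∀ i, Uni (ω i)) ∧ ∃ c : Fin 3 → F, (∀ i x, 𝒯.t (ω i x) = c i * 𝒯.s (ω (i + 1) x)) ∧ δ = ∏ i, c i

def Loc (ι P : Type) [Fintype ι] [AddCommGroup P] [Module R P] : Prop :=
  ∀ i (𝔪 : Ideal E), 𝔪.IsPrime →
    ∃ (h : P →ₗ[R] ι → R) (h' : (ι → R) →ₗ[R] P) (u : R), Fr h h' u ∧ 𝒯.e i u ∉ 𝔪

/-- `δ` is the determinant of `P` around the triangle -/
def Inv (P : Type) [AddCommGroup P] [Module R P] (δ : F) : Prop :=
  ∃ (ι : Type) (_ : Fintype ι) (_ : DecidableEq ι), Loc 𝒯 ι P ∧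
    ∃ ω : Fin 3 → (ι → P) → E, (∀ i, Exp (𝒯.e i) (ω i)) ∧ Dat 𝒯 ω δ

variable {𝒯}

theorem Dat.cmp [IsDomain F] (hu : ∀ μ, IsUnit μ → 𝒯.s μ = 𝒯.t μ) {α β : Fin 3 → X → E}
    {δ δ' : F} (h : Dat 𝒯 α δ) (h' : Dat 𝒯 β δ') (e : ∀ i, ∃ μ, ∀ x, α i x = μ * β i x) :
    δ = δ' := by
  choose μ e using e
  obtain ⟨h1, c, h2, rfl⟩ := h
  obtain ⟨h1', c', h2', rfl⟩ := h'
  have u := fun i => (h1 i).unit (e i)
  have k : ∀ i, 𝒯.s (μ i) * c' i = c i * 𝒯.s (μ (i + 1)) := by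
    intro i
    obtain ⟨x, hx⟩ := h1' (i + 1) _ (RingHom.ker_isPrime 𝒯.s)
    have := h2 i x
    rw [e, e, map_mul, map_mul, h2', ← hu _ (u i)] at this
    exact mul_right_cancel₀ hx (by linear_combination this)
  have n := fun i => ((u i).map 𝒯.s).ne_zero
  refine mul_left_cancel₀ (mul_ne_zero (n 0) (mul_ne_zero (n 1) (n 2))) ?_
  have k0 : _ = c 0 * 𝒯.s (μ 1) := k 0
  have k1 : _ = c 1 * 𝒯.s (μ 2) := k 1
  have k2 : _ = c 2 * 𝒯.s (μ 0) := k 2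
  simp only [Fin.prod_univ_three]
  linear_combination -(𝒯.s (μ 1) * c' 1 * (𝒯.s (μ 2) * c' 2)) * k0 -
    c 0 * 𝒯.s (μ 1) * (𝒯.s (μ 2) * c' 2) * k1 - c 0 * 𝒯.s (μ 1) * (c 1 * 𝒯.s (μ 2)) * k2

theorem Dat.comp {ω : Fin 3 → X → E} {δ : F} (h : Dat 𝒯 ω δ) (f : Y → X)
    (hf : ∀ i, Uni fun y => ω i (f y)) : Dat 𝒯 (fun i y => ω i (f y)) δ := by
  obtain ⟨-, c, h2, h3⟩ := h
  exact ⟨hf, c, fun i y => h2 i _, h3⟩

theorem Dat.mul {α : Fin 3 → X → E} {β : Fin 3 → Y → E} {δ δ' : F} (h : Dat 𝒯 α δ)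
    (h' : Dat 𝒯 β δ') : Dat 𝒯 (fun i (x : X × Y) => α i x.1 * β i x.2) (δ * δ') := by
  obtain ⟨h1, c, h2, rfl⟩ := h
  obtain ⟨h1', c', h2', rfl⟩ := h'
  refine ⟨fun i 𝔪 hm => ?_, fun i => c i * c' i, fun i x => ?_, Finset.prod_mul_distrib.symm⟩
  · obtain ⟨x, hx⟩ := h1 i 𝔪 hm
    obtain ⟨y, hy⟩ := h1' i 𝔪 hm
    exact ⟨(x, y), fun e => (hm.mem_or_mem e).elim hx hy⟩
  · simp only [map_mul, h2, h2']
    ring

theorem inv_free [IsDomain E] {h : P →ₗ[R] ι → R} {h' : (ι → R) →ₗ[R] P} (hh : Fr h h' 1) :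
    Inv 𝒯 P 1 := by
  refine ⟨ι, ‹_›, ‹_›, fun i 𝔪 hm => ⟨h, h', 1, hh, by simpa using hm.ne_top ∘ 𝔪.eq_top_iff_one.2⟩,
    fun i m => 𝒯.e i (D h m), fun i => exp_of h one_ne_zero fun _ => rfl,
    fun i 𝔪 hm => ⟨bs h', ?_⟩, 1, fun i x => by simp [𝒯.st], by simp⟩
  simpa [hh.D_bs] using hm.ne_top ∘ 𝔪.eq_top_iff_one.2

end Pool.Agent.Ptt
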