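import Pool.Agent.P.MP_2ce3e7_ag.Ptt.A

/-! Existence, multiplicativity and base change of the determinant around a triangle. -/

set_option autoImplicit false

namespace Pool.Agent.Ptt

open Function Fintype

variable {R E F M N P ι κ : Type} [CommRing R] [CommRing E] [CommRing F] [AddCommGroup M]
  [Module R M] [AddCommGroup N] [Module R N] [AddCommGroup P] [Module R P] [Fintype ι]
  [DecidableEq ι] [Fintype κ] [DecidableEq κ] {𝒯 : Tri R E F}

/-- the sum of two frames -/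
theorem fr_sum (j : N ≃ₗ[R] M × P) {h : M →ₗ[R] ι → R} {h' : (ι → R) →ₗ[R] M} {u : R}
    (hh : Fr h h' u) {g : P →ₗ[R] κ → R} {g' : (κ → R) →ₗ[R] P} {v : R} (hg : Fr g g' v) :
    ∃ (f : N →ₗ[R] ι ⊕ κ → R) (f' : (ι ⊕ κ → R) →ₗ[R] N), Fr f f' (u * v) ∧
      (∀ (m : ι → M) (p : κ → P), D f (Sum.elim (fun l => j.symm (m l, 0)) fun l => j.symm (0, p l)) =
        D h m * D g p) ∧
      bs f' = Sum.elim (fun l => j.symm (v • bs h' l, 0)) fun l => j.symm (0, u • bs g' l) := by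
  let e := LinearEquiv.sumArrowLequivProdArrow ι κ R R
  refine ⟨e.symm.toLinearMap ∘ₗ h.prodMap g ∘ₗ j.toLinearMap,
    j.symm.toLinearMap ∘ₗ (v • h').prodMap (u • g') ∘ₗ e.toLinearMap, ⟨fun m => ?_, fun x => ?_⟩,
    fun m p => ?_, ?_⟩
  · refine j.injective ?_
    simp only [LinearMap.comp_apply, LinearEquiv.coe_coe, LinearEquiv.apply_symm_apply,
      LinearMap.prodMap_apply, LinearMap.smul_apply, hh.l, hg.l, map_smul, smul_smul, mul_comm v u]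
    rfl
  · refine e.injective ?_
    simp only [LinearMap.comp_apply, LinearEquiv.coe_coe, LinearEquiv.apply_symm_apply,
      LinearMap.prodMap_apply, LinearMap.smul_apply, hh.r, hg.r, map_smul, smul_smul, mul_comm v u]
    rfl
  · unfold D
    rw [← Matrix.det_fromBlocks_zero₁₂ _ 0]
    refine congrArg Matrix.det (Matrix.ext ?_)
    rintro (a | a) (b | b) <;> simp [e]
  · funext l
    rcases l with l | l
    · refine congrArg j.symm (Prod.ext ?_ ?_)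
      · refine congrArg (fun x => v • h' x) (funext fun x => ?_)
        simp [e, Pi.single_apply]
      · refine (congrArg (fun x => u • g' x) (a₂ := 0) (funext fun x => ?_)).trans (by simp)
        simp [e]
    · refine congrArg j.symm (Prod.ext ?_ ?_)
      · refine (congrArg (fun x => v • h' x) (a₂ := 0) (funext fun x => ?_)).trans (by simp)
        simp [e]
      · refine congrArg (fun x => u • g' x) (funext fun x => ?_)
        simp [e, Pi.single_apply]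

theorem inv_mul [IsDomain E] [IsDomain F] (hu : ∀ μ, IsUnit μ → 𝒯.s μ = 𝒯.t μ)
    (j : N ≃ₗ[R] M × P) {a b c : F} (hN : Inv 𝒯 N a) (hM : Inv 𝒯 M b) (hP : Inv 𝒯 P c) :
    a = b * c := by
  obtain ⟨ν, _, _, lN, ω, eN, dN⟩ := hN
  obtain ⟨ι, _, _, lM, α, eM, dM⟩ := hM
  obtain ⟨κ, _, _, lP, β, eP, dP⟩ := hP
  have fr : ∀ i (𝔪 : Ideal E), 𝔪.IsPrime → ∃ h h' u g g' v, Fr (ι := ι) (P := M) h h' u ∧
      Fr (ι := κ) (P := P) g g' v ∧ 𝒯.e i u ∉ 𝔪 ∧ 𝒯.e i v ∉ 𝔪 := fun i 𝔪 hm => by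
    obtain ⟨h, h', u, h1, h2⟩ := lM i 𝔪 hm
    obtain ⟨g, g', v, h3, h4⟩ := lP i 𝔪 hm
    exact ⟨h, h', u, g, g', v, h1, h3, h2, h4⟩
  obtain ⟨e⟩ : Nonempty (ν ≃ ι ⊕ κ) := by
    obtain ⟨h, h', u, g, g', v, h1, h2, h3, h4⟩ := fr 0 ⊥ Ideal.isPrime_bot
    obtain ⟨f, f', h5, -⟩ := fr_sum j h1 h2
    obtain ⟨k, k', w, h6, h7⟩ := lN 0 ⊥ Ideal.isPrime_bot
    have : 𝒯.e 0 (u * v) ≠ 0 := by rw [map_mul]; exact mul_ne_zero h3 h4
    exact ⟨equivOfCardEq ((card_le _ h6 h5 h7 this).antisymm (card_le _ h5 h6 this h7))⟩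
  let σ : (ι → M) × (κ → P) → ν → N := fun x =>
    Sum.elim (fun l => j.symm (x.1 l, 0)) (fun l => j.symm (0, x.2 l)) ∘ e
  refine (dN.comp σ fun i 𝔪 hm => ?_).cmp hu (dM.mul dP) fun i => ?_
  · obtain ⟨h, h', u, g, g', v, h1, h2, h3, h4⟩ := fr i 𝔪 hm
    obtain ⟨f, f', h5, -, h6⟩ := fr_sum j h1 h2
    refine ⟨(fun l => v • bs h' l, fun l => u • bs g' l), fun hx => ?_⟩
    obtain ⟨m, hm'⟩ := dN.1 i 𝔪 hm
    have := eN i _ e f f' _ h5 (m ∘ e.symm)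
    rw [h6, comp_assoc, e.symm_comp_self, comp_id] at this
    rcases hm.mem_or_mem (this ▸ 𝔪.mul_mem_right _ hx) with k | k
    · rw [map_mul] at k
      exact (hm.mem_or_mem (hm.mem_of_pow_mem _ k)).elim h3 h4
    · exact hm' k
  · obtain ⟨h, h', u, g, g', v, h1, h2, h3, h4⟩ := fr i ⊥ Ideal.isPrime_bot
    obtain ⟨f, f', h5, h6, -⟩ := fr_sum j h1 h2
    have : 𝒯.e i (u * v) ≠ 0 := by rw [map_mul]; exact mul_ne_zero h3 h4
    refine ratio (d := fun x => 𝒯.e i (D h x.1 * D g x.2)) (a := ω i (bs f' ∘ e))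
      (b := α i (bs h') * β i (bs g')) (pow_ne_zero (card (ι ⊕ κ)) this)
      (mul_ne_zero (pow_ne_zero (card ι) h3) (pow_ne_zero (card κ) h4)) (fun x => ?_) (fun x => ?_)
      ((dM.mul dP).1 i)
    · rw [← h6]
      exact eN i _ e f f' _ h5 _
    · have k1 : _ * α i x.1 = α i (bs h') * _ := eM i _ (Equiv.refl _) h h' _ h1 x.1
      have k2 : _ * β i x.2 = β i (bs g') * _ := eP i _ (Equiv.refl _) g g' _ h2 x.2
      rw [mul_mul_mul_comm, k1, k2, map_mul, mul_mul_mul_comm]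

theorem inv_zero [IsDomain E] [Subsingleton P] : Inv 𝒯 P 1 :=
  inv_free (ι := Empty) (h := 0) (h' := 0) ⟨fun _ => Subsingleton.elim _ _,
    fun _ => Subsingleton.elim _ _⟩

theorem inv_uniq [IsDomain E] [IsDomain F] (hu : ∀ μ, IsUnit μ → 𝒯.s μ = 𝒯.t μ) {a b : F}
    (h : Inv 𝒯 P a) (h' : Inv 𝒯 P b) : a = b :=
  (inv_mul hu (LinearEquiv.prodUnique (M₂ := PUnit)).symm h h' inv_zero).trans (mul_one b)

section
variable {R' E' F' W : Type} [CommRing R'] [CommRing E'] [CommRing F'] [AddCommGroup W]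
  [Module R' W] {𝒮 : Tri R' E' F'} {φ : R' →+* R}

theorem fr_desc (i : W →ₛₗ[φ] M) (hφ : Surjective φ) (hi : Surjective i)
    (hk : ∀ w, i w = 0 → ∀ f : W →ₗ[R'] R', φ (f w) = 0) {h : W →ₗ[R'] ι → R'}
    {h' : (ι → R') →ₗ[R'] W} {u : R'} (hh : Fr h h' u) :
    ∃ (g : M →ₗ[R] ι → R) (g' : (ι → R) →ₗ[R] M), Fr g g' (φ u) ∧
      ∀ w, D g (i ∘ w) = φ (D h w) := by
  have key : ∀ w l, φ (h (surjInv hi (i w)) l) = φ (h w l) := fun w l => by
    have := hk (surjInv hi (i w) - w) (by rw [map_sub, surjInv_eq hi, sub_self])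
      (LinearMap.proj l ∘ₗ h)
    rwa [map_sub, map_sub, sub_eq_zero] at this
  let g : M →ₗ[R] ι → R :=
    { toFun := fun m l => φ (h (surjInv hi m) l)
      map_add' := fun x y => funext fun l => by
        obtain ⟨x, rfl⟩ := hi x
        obtain ⟨y, rfl⟩ := hi y
        simp only [← map_add i, key, Pi.add_apply, map_add h, map_add φ]
      map_smul' := fun r x => funext fun l => by
        obtain ⟨x, rfl⟩ := hi x
        obtain ⟨r, rfl⟩ := hφ r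
        simp only [← map_smulₛₗ i, key, Pi.smul_apply, map_smul h, smul_eq_mul, map_mul,
          RingHom.id_apply] }
  have hg : ∀ w l, g (i w) l = φ (h w l) := key
  refine ⟨g, Fintype.linearCombination R fun l => i (bs h' l), ⟨fun m => ?_, fun v => ?_⟩,
    fun w => ?_⟩
  · obtain ⟨w, rfl⟩ := hi m
    rw [← map_smulₛₗ i, ← hh.l, eq_sum h']
    simp only [Fintype.linearCombination_apply, hg, map_sum, map_smulₛₗ]
  · funext l
    simp [Fintype.linearCombination_apply, hg, bs, hh.r, Pi.single_apply, apply_ite φ, mul_comm]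
  · rw [D, D, φ.map_det]
    exact congrArg Matrix.det (Matrix.ext fun a b => hg _ _)

theorem inv_desc [IsDomain E] (χ : E' →+* E) (ρ : F' →+* F) (he : ∀ i r, χ (𝒮.e i r) = 𝒯.e i (φ r))
    (hs : ∀ x, ρ (𝒮.s x) = 𝒯.s (χ x)) (ht : ∀ x, ρ (𝒮.t x) = 𝒯.t (χ x)) (i : W →ₛₗ[φ] M)
    (hφ : Surjective φ) (hi : Surjective i)
    (hk : ∀ w, i w = 0 → ∀ f : W →ₗ[R'] R', φ (f w) = 0) {δ : F'} (h : Inv 𝒮 W δ) :
    Inv 𝒯 M (ρ δ) := by
  obtain ⟨ι, _, _, l, ω, ex, un, c, hc, rfl⟩ := h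
  have k : ∀ a, ∃ (g : M →ₗ[R] ι → R) (x y : E), x ≠ 0 ∧
      ∀ w, x * χ (ω a w) = y * 𝒯.e a (D g (i ∘ w)) := fun a => by
    obtain ⟨h, h', u, h1, h2⟩ := l a _ (RingHom.ker_isPrime χ)
    obtain ⟨g, g', -, h3⟩ := fr_desc i hφ hi hk h1
    refine ⟨g, _, χ (ω a (bs h')), pow_ne_zero (card ι) h2, fun w => ?_⟩
    rw [h3, ← he, ← map_pow, ← map_mul, ← map_mul]
    exact congrArg χ (ex a _ (Equiv.refl _) h h' u h1 w)
  have sec : ∀ m : ι → M, i ∘ surjInv hi ∘ m = m := fun m => funext fun _ => surjInv_eq hi _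
  refine ⟨ι, ‹_›, ‹_›, fun a 𝔪 hm => ?_, fun a m => χ (ω a (surjInv hi ∘ m)), fun a => ?_,
    fun a 𝔪 hm => ?_, fun a => ρ (c a), fun a m => ?_, map_prod ρ _ _⟩
  · obtain ⟨h, h', u, h1, h2⟩ := l a _ (hm.comap χ)
    obtain ⟨g, g', h3, -⟩ := fr_desc i hφ hi hk h1
    exact ⟨g, g', _, h3, he a u ▸ h2⟩
  · obtain ⟨g, x, y, h1, h2⟩ := k a
    exact exp_of g h1 fun m => by rw [h2, sec]
  · obtain ⟨g, x, y, h1, h2⟩ := k a
    obtain ⟨w, hw⟩ := un a _ (hm.comap χ)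
    refine ⟨i ∘ w, ?_⟩
    have := h2 (surjInv hi ∘ i ∘ w)
    rw [sec, ← h2] at this
    exact fun hx => hw (Ideal.mem_comap.2 (mul_left_cancel₀ h1 this ▸ hx))
  · rw [← ht, ← hs, hc, map_mul]

end

end Pool.Agent.Ptt
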