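import Pool.Agent.P.MP_2ce3e7_ag.Ptt.B

/-! Existence of the determinant around a triangle. -/

set_option autoImplicit false

namespace Pool.Agent.Ptt

open Function Fintype

variable {R E F P ι : Type} [CommRing R] [CommRing E] [CommRing F] [AddCommGroup P] [Module R P]
  [Fintype ι] [DecidableEq ι] {𝒯 : Tri R E F}

theorem exists_fr [IsNoetherianRing R] [Module.Finite R P] [Module.Flat R P] (𝔭 : Ideal R)
    [𝔭.IsPrime] : ∃ (n : ℕ) (h : P →ₗ[R] Fin n → R) (h' : (Fin n → R) →ₗ[R] P) (u : R),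
      Fr h h' u ∧ u ∉ 𝔭 := by
  have := Module.finitePresentation_of_finite R P
  let S := Localization.AtPrime 𝔭
  let L := LocalizedModule 𝔭.primeCompl P
  have : Module.Free S L := Module.free_of_flat_of_isLocalRing
  let l := (Module.finBasis S L).equivFun.restrictScalars R
  let f : (Fin (Module.finrank S L) → R) →ₗ[R] Fin (Module.finrank S L) → S :=
    .pi fun i => Algebra.linearMap R S ∘ₗ .proj i
  let g : P →ₗ[R] L := LocalizedModule.mkLinearMap 𝔭.primeCompl P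
  obtain ⟨h, s, hs⟩ := Module.FinitePresentation.exists_lift_of_isLocalizedModule 𝔭.primeCompl f
    (l.toLinearMap ∘ₗ g)
  obtain ⟨h', s', hs'⟩ := Module.FinitePresentation.exists_lift_of_isLocalizedModule 𝔭.primeCompl g
    (l.symm.toLinearMap ∘ₗ f)
  have e : ∀ x, f (h x) = (s : R) • l (g x) := LinearMap.congr_fun hs
  have e' : ∀ x, g (h' x) = (s' : R) • l.symm (f x) := LinearMap.congr_fun hs'
  obtain ⟨a, ha⟩ := Module.Finite.exists_smul_of_comp_eq_of_isLocalizedModule 𝔭.primeCompl g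
    (h' ∘ₗ h) (((s : R) * s') • LinearMap.id) (LinearMap.ext fun x => by
      simp [e, e', smul_smul, mul_comm])
  obtain ⟨b, hb⟩ := Module.Finite.exists_smul_of_comp_eq_of_isLocalizedModule 𝔭.primeCompl f
    (h ∘ₗ h') (((s : R) * s') • LinearMap.id) (LinearMap.ext fun x => by
      simp [e, e', smul_smul])
  have ea : ∀ x, (a : R) • h' (h x) = (a : R) • ((s : R) * s') • x := LinearMap.congr_fun ha
  have eb : ∀ x, (b : R) • h (h' x) = (b : R) • ((s : R) * s') • x := LinearMap.congr_fun hb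
  refine ⟨_, h, ((a : R) * b) • h', (a * b * (s * s') : 𝔭.primeCompl), ⟨fun x => ?_, fun x => ?_⟩,
    (a * b * (s * s')).2⟩
  · rw [LinearMap.smul_apply, mul_comm, mul_smul, ea]
    simp only [smul_smul, Submonoid.coe_mul]
    ring_nf
  · rw [LinearMap.smul_apply, map_smul, mul_smul, eb]
    simp only [smul_smul, Submonoid.coe_mul, mul_assoc]

theorem exists_loc [IsDomain E] [IsDomain F] [IsNoetherianRing R] [Module.Finite R P]
    [Module.Flat R P] : ∃ n, Loc 𝒯 (Fin n) P := by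
  have H : ∀ i (𝔪 : Ideal E), 𝔪.IsPrime → ∃ (n : ℕ) (h : P →ₗ[R] Fin n → R)
      (h' : (Fin n → R) →ₗ[R] P) (u : R), Fr h h' u ∧ 𝒯.e i u ∉ 𝔪 := fun i 𝔪 hm =>
    exists_fr (𝔪.comap (𝒯.e i))
  obtain ⟨n, h, h', u, h1, h2⟩ := H 0 _ (RingHom.ker_isPrime 𝒯.t)
  obtain ⟨n', g, g', v, h3, h4⟩ := H 2 _ (RingHom.ker_isPrime 𝒯.t)
  have ne : ∀ (χ : E →+* F) x, χ x ≠ 0 → x ≠ 0 := fun χ x h e => h (by rw [e, map_zero])
  have eq : ∀ i {a b : ℕ} {h : P →ₗ[R] Fin a → R} {h' u} {g : P →ₗ[R] Fin b → R} {g' v},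
      Fr h h' u → Fr g g' v → 𝒯.e i u ≠ 0 → 𝒯.e i v ≠ 0 → a = b := fun i a b _ _ _ _ _ _ p q r s =>
    by simpa using (card_le _ p q r s).antisymm (card_le _ q p s r)
  obtain rfl : n = n' := eq 0 h1 h3 (ne _ _ h2) (ne 𝒯.s _ fun e => h4 ((𝒯.st 2 v).trans e))
  have G : ∀ i, ∃ (h : P →ₗ[R] Fin n → R) (h' : (Fin n → R) →ₗ[R] P) (u : R),
      Fr h h' u ∧ 𝒯.e i u ≠ 0 := fun i => by
    fin_cases i
    exacts [⟨h, h', u, h1, ne _ _ h2⟩, ⟨h, h', u, h1, ne 𝒯.s _ fun e => h2 ((𝒯.st 0 u).trans e)⟩,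
      ⟨g, g', v, h3, ne _ _ h4⟩]
  refine ⟨n, fun i 𝔪 hm => ?_⟩
  obtain ⟨m, k, k', w, h5, h6⟩ := H i 𝔪 hm
  obtain ⟨p, p', q, h7, h8⟩ := G i
  obtain rfl : m = n := eq i h5 h7 (fun e => h6 (e ▸ 𝔪.zero_mem)) h8
  exact ⟨k, k', w, h5, h6⟩

theorem exists_vol [IsDomain E] [IsNoetherianRing E] [UniqueFactorizationMonoid E] (ψ : R →+* E)
    (H : ∀ 𝔪 : Ideal E, 𝔪.IsPrime →
      ∃ (h : P →ₗ[R] ι → R) (h' : (ι → R) →ₗ[R] P) (u : R), Fr h h' u ∧ ψ u ∉ 𝔪) :
    ∃ ω : (ι → P) → E, Exp ψ ω ∧ Uni ω := by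
  classical
  let _ : StrongNormalizationMonoid E := UniqueFactorizationMonoid.strongNormalizationMonoid
  let _ := UniqueFactorizationMonoid.toNormalizedGCDMonoid E
  obtain ⟨h, h', u, h1, h2⟩ := H ⊥ Ideal.isPrime_bot
  obtain ⟨S, hS⟩ := (isNoetherianRing_iff_ideal_fg E).1 ‹_›
    (Ideal.span (Set.range fun m => ψ (D h m)))
  have dv : ∀ m, S.gcd id ∣ ψ (D h m) := fun m => by
    rw [← Ideal.mem_span_singleton]
    refine (?_ : Ideal.span (S : Set E) ≤ _) (hS ▸ Ideal.subset_span ⟨m, rfl⟩)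
    exact Ideal.span_le.2 fun x hx => Ideal.mem_span_singleton.2 (Finset.gcd_dvd hx)
  choose ω hω using dv
  have g0 : S.gcd id ≠ 0 := fun e => by
    have := hω (bs h')
    rw [e, zero_mul, h1.D_bs, map_pow] at this
    exact pow_ne_zero _ h2 this
  have ex : Exp ψ ω := exp_of h g0 (c := 1) fun m => by rw [one_mul, hω]
  refine ⟨ω, ex, fun 𝔪 hm => ?_⟩
  obtain ⟨g, g', v, h3, h4⟩ := H 𝔪 hm
  refine ⟨bs g', fun hx => h4 (hm.mem_of_pow_mem (card ι) ?_)⟩
  have k : ∀ x ∈ Ideal.span (Set.range fun m => ψ (D h m)),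
      ω (bs g') * S.gcd id ∣ ψ v ^ card ι * x := fun x hx => by
    induction hx using Submodule.span_induction with
    | mem x hx =>
      obtain ⟨m, rfl⟩ := hx
      have : _ * ω m = ω (bs g') * _ := ex _ (Equiv.refl _) g g' v h3 m
      exact ⟨ψ (D g m), by simp only [hω m]; linear_combination S.gcd id * this⟩
    | zero => simp
    | add x y _ _ hx hy => rw [mul_add]; exact dvd_add hx hy
    | smul r x _ hx => rw [smul_eq_mul, mul_left_comm]; exact hx.mul_left r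
  have := (Finset.dvd_gcd (s := S) (f := fun x => ψ v ^ card ι * id x) fun x hx =>
    k x (hS ▸ Ideal.subset_span hx)).trans (Finset.gcd_mul_left' S id _).dvd
  obtain ⟨c, hc⟩ := (mul_dvd_mul_iff_right g0).1 this
  exact hc ▸ 𝔪.mul_mem_right _ hx

theorem exists_inv [IsDomain E] [IsDomain F] [IsNoetherianRing E] [UniqueFactorizationMonoid E]
    [IsNoetherianRing R] [Module.Finite R P] [Module.Flat R P] : ∃ δ, IsUnit δ ∧ Inv 𝒯 P δ := by
  obtain ⟨n, hn⟩ := exists_loc (𝒯 := 𝒯) (P := P)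
  choose ω ex un using fun i => exists_vol (𝒯.e i) (hn i)
  have push : ∀ (χ : E →+* F) i, Uni fun m => χ (ω i m) := fun χ i 𝔪 hm => un i _ (hm.comap χ)
  have : ∀ i, ∃ c, ∀ x, 𝒯.t (ω i x) = c * 𝒯.s (ω (i + 1) x) := fun i => by
    obtain ⟨h, h', u, h1, h2⟩ := hn i _ (RingHom.ker_isPrime 𝒯.t)
    have h3 : 𝒯.t (𝒯.e i u) ^ card (Fin n) ≠ 0 := pow_ne_zero _ h2
    refine ratio (d := fun x => 𝒯.t (𝒯.e i (D h x))) (a := 𝒯.t (ω i (bs h')))
      (b := 𝒯.s (ω (i + 1) (bs h'))) h3 h3 (fun x => ?_) (fun x => ?_) (push _ _)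
    · rw [← map_pow, ← map_mul, ← map_mul]
      exact congrArg 𝒯.t (ex i _ (Equiv.refl _) h h' u h1 x)
    · rw [𝒯.st, 𝒯.st, ← map_pow, ← map_mul, ← map_mul]
      exact congrArg 𝒯.s (ex (i + 1) _ (Equiv.refl _) h h' u h1 x)
  choose c hc using this
  exact ⟨_, IsUnit.prod_univ_iff.2 fun i => (push _ i).unit (hc i), _, inferInstance, inferInstance, hn,
    ω, ex, un, c, hc, rfl⟩

theorem Fr.local {r : ℕ} {h : P →ₗ[R] Fin r → R} {h' : (Fin r → R) →ₗ[R] P} {u : R}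
    (hh : Fr h h' u) (p : Ideal R) [p.IsPrime] (hu : u ∉ p) :
    Nonempty (LocalizedModule p.primeCompl P ≃ₗ[Localization.AtPrime p]
      (Fin r → Localization.AtPrime p)) := by
  let S := Localization.AtPrime p
  let f : (Fin r → R) →ₗ[R] Fin r → S := .pi fun i => Algebra.linearMap R S ∘ₗ .proj i
  let g := LocalizedModule.mkLinearMap p.primeCompl P
  let H := IsLocalizedModule.map p.primeCompl g f h
  let H' := IsLocalizedModule.map p.primeCompl f g h'
  have e1 : H' ∘ₗ H = u • LinearMap.id := by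
    rw [← IsLocalizedModule.map_comp', ← IsLocalizedModule.map_id p.primeCompl g, ← map_smul]
    exact congrArg _ (LinearMap.ext hh.l)
  have e2 : H ∘ₗ H' = u • LinearMap.id := by
    rw [← IsLocalizedModule.map_comp', ← IsLocalizedModule.map_id p.primeCompl f, ← map_smul]
    exact congrArg _ (LinearMap.ext hh.r)
  have b1 := (Module.End.isUnit_iff _).1 (IsLocalizedModule.map_units (S := p.primeCompl) g ⟨u, hu⟩)
  have b2 := (Module.End.isUnit_iff _).1 (IsLocalizedModule.map_units (S := p.primeCompl) f ⟨u, hu⟩)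
  refine ⟨LinearEquiv.ofBijective (H.extendScalarsOfIsLocalization p.primeCompl S)
    ⟨Injective.of_comp (f := H') ?_, Surjective.of_comp (g := H') ?_⟩⟩
  · change Injective ⇑(H' ∘ₗ H)
    rw [e1]
    exact b1.1
  · change Surjective ⇑(H ∘ₗ H')
    rw [e2]
    exact b2.2

end Pool.Agent.Ptt
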