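import Pool.Agent.P.MP_2ce3e7_ag.CP0

/-! Projections of a homogeneous coordinate ring, and functionals on a base change. -/

set_option autoImplicit false

namespace Pool.Agent.Ptt

open Function CXD
open scoped TensorProduct

section
open MvPolynomial
variable {k σ : Type} [Field k] (J : Ideal (MvPolynomial σ k))

theorem hom_alg (c : k) : algebraMap k _ c ∈ hom J 0 :=
  ⟨0, C c, rfl, isHomogeneous_C _ _, rfl⟩

theorem poly_ind (p : MvPolynomial σ k → Prop) (h0 : p 0)
    (h1 : ∀ (n : ℕ) (f : MvPolynomial σ k), f.IsHomogeneous n → p f)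
    (h2 : ∀ a b, p a → p b → p (a + b)) (f : MvPolynomial σ k) : p f := by
  rw [← sum_homogeneousComponent f]
  exact Finset.sum_induction _ p h2 h0 fun n _ => h1 n _ (homogeneousComponent_isHomogeneous n f)

theorem hom_ind (p : MvPolynomial σ k ⧸ J → Prop) (h0 : p 0) (h1 : ∀ c, ∀ a ∈ hom J c, p a)
    (h2 : ∀ a b, p a → p b → p (a + b)) (a : MvPolynomial σ k ⧸ J) : p a := by
  obtain ⟨f, rfl⟩ := Ideal.Quotient.mk_surjective a
  refine poly_ind (fun f => p (Ideal.Quotient.mk J f)) (by simpa using h0)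
    (fun n f hf => h1 n _ ⟨n, f, rfl, hf, rfl⟩) (fun a b ha hb => ?_) f
  rw [map_add]
  exact h2 _ _ ha hb

theorem hom_fin [Fintype σ] (c : ℤ) : ∃ S : Finset (MvPolynomial σ k ⧸ J), (S : Set _) ⊆ hom J c ∧
    hom J c ⊆ Submodule.span k (S : Set (MvPolynomial σ k ⧸ J)) := by
  classical
  by_cases hc : ∃ m : ℕ, (m : ℤ) = c
  · obtain ⟨m, rfl⟩ := hc
    refine ⟨(Finset.finsuppAntidiag Finset.univ m).image
      fun d : σ →₀ ℕ => Ideal.Quotient.mk J (monomial d 1), ?_, ?_⟩
    · intro y hy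
      obtain ⟨d, hd, rfl⟩ := Finset.mem_image.1 (Finset.mem_coe.1 hy)
      refine ⟨m, monomial d 1, rfl, isHomogeneous_monomial _ ?_, rfl⟩
      rw [Finsupp.degree_eq_sum]
      exact (Finset.mem_finsuppAntidiag.1 hd).1
    · rintro y ⟨m', f, hm, hf, rfl⟩
      obtain rfl : m' = m := by exact_mod_cast hm
      rw [f.as_sum, map_sum]
      refine Submodule.sum_mem _ fun d hd => ?_
      have e : Ideal.Quotient.mk J (monomial d (coeff d f)) =
          coeff d f • Ideal.Quotient.mk J (monomial d 1) := by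
        rw [← Ideal.Quotient.mkₐ_eq_mk k J, ← map_smul, smul_monomial, smul_eq_mul, mul_one]
      rw [e]
      refine Submodule.smul_mem _ _ (Submodule.subset_span (Finset.mem_coe.2
        (Finset.mem_image.2 ⟨d, Finset.mem_finsuppAntidiag.2 ⟨?_, Finset.subset_univ _⟩, rfl⟩)))
      have h : Finsupp.weight (fun _ => 1) d = m' := hf (mem_support_iff.1 hd)
      rw [← Finsupp.degree_eq_weight_one, Finsupp.degree_eq_sum] at h
      exact h
  · refine ⟨∅, by simp, ?_⟩
    rintro y ⟨m, f, hm, -, -⟩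
    exact (hc ⟨m, hm⟩).elim

theorem hc_of {n : ℕ} {f : MvPolynomial σ k} (hf : f.IsHomogeneous n) (m : ℕ) :
    homogeneousComponent m f = if m = n then f else 0 :=
  homogeneousComponent_of_mem hf

theorem hc_mul {m : ℕ} {f : MvPolynomial σ k} (hf : f.IsHomogeneous m) (j : ℕ)
    (x : MvPolynomial σ k) : homogeneousComponent j (f * x) =
      if m ≤ j then f * homogeneousComponent (j - m) x else 0 := by
  refine poly_ind (fun x => homogeneousComponent j (f * x) =
      if m ≤ j then f * homogeneousComponent (j - m) x else 0) (by simp) (fun i x hx => ?_)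
      (fun a b ha hb => ?_) x
  · rw [hc_of (hf.mul hx), hc_of hx]
    by_cases h1 : m ≤ j
    · by_cases h2 : j = m + i
      · rw [if_pos h1, if_pos h2, if_pos (by omega)]
      · rw [if_pos h1, if_neg h2, if_neg (by omega), mul_zero]
    · rw [if_neg h1, if_neg (by omega)]
  · rw [mul_add, map_add, ha, hb, map_add]
    by_cases h1 : m ≤ j
    · simp only [if_pos h1, mul_add]
    · simp only [if_neg h1, add_zero]

theorem exists_proj [Fintype σ] (hJ : ∀ f ∈ J, ∀ n, homogeneousComponent n f ∈ J) :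
    ∃ ϖ : ℤ → (MvPolynomial σ k ⧸ J) →ₗ[k] MvPolynomial σ k ⧸ J,
      (∀ d x, ϖ d (ϖ d x) = ϖ d x) ∧ (∀ d e x, d ≠ e → ϖ d (ϖ e x) = 0) ∧
      (∀ x, ∃ s : Finset ℤ, ∑ d ∈ s, ϖ d x = x) ∧
      (∀ c d, ∀ a ∈ hom J c, ∀ x, ϖ (c + d) (a * x) = a * ϖ d x) ∧
      (∀ d, ∀ a ∈ hom J d, ϖ d a = a) ∧ ∀ d, Module.Finite k (LinearMap.range (ϖ d)) := by
  classical
  have key : ∀ n : ℕ, ∃ g : (MvPolynomial σ k ⧸ J) →ₗ[k] MvPolynomial σ k ⧸ J,
      ∀ x, g (Ideal.Quotient.mk J x) = Ideal.Quotient.mk J (homogeneousComponent n x) := by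
    intro n
    obtain ⟨s, hs⟩ := (Ideal.Quotient.mkₐ k J).toLinearMap.exists_rightInverse_of_surjective
      (LinearMap.range_eq_top.2 (Ideal.Quotient.mkₐ_surjective k J))
    refine ⟨(Ideal.Quotient.mkₐ k J).toLinearMap ∘ₗ homogeneousComponent n ∘ₗ s, fun x => ?_⟩
    have h1 : Ideal.Quotient.mk J (s (Ideal.Quotient.mk J x)) = Ideal.Quotient.mk J x :=
      LinearMap.congr_fun hs (Ideal.Quotient.mk J x)
    have h2 := hJ _ (Ideal.Quotient.eq.1 h1) n
    rw [map_sub] at h2
    exact Ideal.Quotient.eq.2 h2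
  choose g hg using key
  have hp : ∀ (n : ℕ) x, (if 0 ≤ (n : ℤ) then g (n : ℤ).toNat else 0) (Ideal.Quotient.mk J x) =
      Ideal.Quotient.mk J (homogeneousComponent n x) := by
    intro n x
    rw [if_pos (Int.natCast_nonneg n), Int.toNat_natCast, hg]
  refine ⟨fun d => if 0 ≤ d then g d.toNat else 0, ?_, ?_, ?_, ?_, ?_, ?_⟩
  · intro d x
    obtain ⟨x, rfl⟩ := Ideal.Quotient.mk_surjective x
    by_cases hd : 0 ≤ d
    · simp only [if_pos hd, hg]
      rw [hc_of (homogeneousComponent_isHomogeneous _ x), if_pos rfl]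
    · simp only [if_neg hd, LinearMap.zero_apply]
  · intro d e x hde
    obtain ⟨x, rfl⟩ := Ideal.Quotient.mk_surjective x
    by_cases hd : 0 ≤ d
    · by_cases he : 0 ≤ e
      · simp only [if_pos hd, if_pos he, hg]
        rw [hc_of (homogeneousComponent_isHomogeneous _ x), if_neg (by omega), map_zero]
      · simp only [if_neg he, LinearMap.zero_apply, map_zero]
    · simp only [if_neg hd, LinearMap.zero_apply]
  · intro x
    obtain ⟨x, rfl⟩ := Ideal.Quotient.mk_surjective x
    refine ⟨(Finset.range (x.totalDegree + 1)).image fun n : ℕ => (n : ℤ), ?_⟩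
    rw [Finset.sum_image fun a _ b _ h => by exact_mod_cast h]
    simp only [hp]
    rw [← map_sum, sum_homogeneousComponent]
  · rintro c d a ⟨m, f, rfl, hf, rfl⟩ x
    obtain ⟨x, rfl⟩ := Ideal.Quotient.mk_surjective x
    rw [← map_mul]
    by_cases hd : 0 ≤ d
    · have h1 : 0 ≤ (m : ℤ) + d := by omega
      simp only [if_pos hd, if_pos h1, hg]
      rw [hc_mul hf, if_pos (by omega), map_mul,
        show ((m : ℤ) + d).toNat - m = d.toNat by omega]
    · by_cases h1 : 0 ≤ (m : ℤ) + d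
      · simp only [if_neg hd, if_pos h1, hg, LinearMap.zero_apply, mul_zero]
        rw [hc_mul hf, if_neg (by omega), map_zero]
      · simp only [if_neg hd, if_neg h1, LinearMap.zero_apply, mul_zero]
  · rintro d a ⟨m, f, rfl, hf, rfl⟩
    simp only [hp]
    rw [hc_of hf, if_pos rfl]
  · intro d
    obtain ⟨S, -, hS⟩ := hom_fin J d
    have hle : LinearMap.range (if 0 ≤ d then g d.toNat else 0) ≤
        Submodule.span k (S : Set (MvPolynomial σ k ⧸ J)) := by
      rintro y ⟨x, rfl⟩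
      obtain ⟨x, rfl⟩ := Ideal.Quotient.mk_surjective x
      by_cases hd : 0 ≤ d
      · rw [if_pos hd, hg]
        exact hS ⟨d.toNat, _, Int.toNat_of_nonneg hd, homogeneousComponent_isHomogeneous _ x, rfl⟩
      · rw [if_neg hd]
        exact Submodule.zero_mem _
    exact Submodule.finiteDimensional_of_le hle

end

section
variable (k T A : Type) [Field k] [CommRing T] [Algebra k T] [CommRing A] [Algebra k A]

/-- Multiplication on the values. -/
noncomputable def actT : T →ₐ[k] Module.End k (A →ₗ[k] T) where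
  toFun t := LinearMap.llcomp k A T T (LinearMap.mulLeft k t)
  map_one' := by ext f x; simp
  map_mul' s t := by ext f x; simp
  map_zero' := by ext f x; simp
  map_add' s t := by ext f x; simp [add_mul]
  commutes' c := by ext f x; simp [Algebra.smul_def]

/-- Multiplication on the arguments. -/
noncomputable def actA : A →ₐ[k] Module.End k (A →ₗ[k] T) where
  toFun a := LinearMap.lcomp k T (LinearMap.mulLeft k a)
  map_one' := by ext f x; simp
  map_mul' s t := by ext f x; simp [mul_left_comm]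
  map_zero' := by ext f x; simp
  map_add' s t := by ext f x; simp [add_mul]
  commutes' c := by ext f x; simp [← Algebra.smul_def]

/-- The action of the tensor product. -/
noncomputable def actTA : T ⊗[k] A →ₐ[k] Module.End k (A →ₗ[k] T) :=
  Algebra.TensorProduct.lift (actT k T A) (actA k T A) fun _ _ => rfl

theorem actTA_tmul (t : T) (a : A) (f : A →ₗ[k] T) (x : A) :
    actTA k T A (t ⊗ₜ a) f x = t * f (a * x) := rfl

end

theorem coind {k T A C W M : Type} [Field k] [CommRing T] [Algebra k T] [CommRing A] [Algebra k A]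
    [CommRing C] [AddCommGroup W] [Module C W] [AddCommGroup M] [Module (T ⊗[k] A) M]
    {φ : C →+* T ⊗[k] A} (i : W →ₛₗ[φ] M)
    (hu : ∀ (P : Type) [AddCommGroup P] [Module (T ⊗[k] A) P] (j : W →ₛₗ[φ] P),
      ∃! g : M →ₗ[T ⊗[k] A] P, ∀ x, g (i x) = j x)
    (ι : A →+* C) (hι : ∀ a, φ (ι a) = 1 ⊗ₜ a) (F₀ : W →+ T)
    (hk : ∀ (c : k) w, F₀ (ι (algebraMap k A c) • w) = c • F₀ w)
    (hC : ∀ p : C → Prop, p 0 → (∀ x y, p x → p y → p (x + y)) →
      (∀ τ t a, φ τ = t ⊗ₜ 1 → (∀ w, F₀ (τ • w) = t * F₀ w) → p (τ * ι a)) → ∀ c, p c) :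
    ∃ F : M →+ T, (∀ (t : T) m, F ((t ⊗ₜ[k] (1 : A)) • m) = t * F m) ∧ ∀ w, F (i w) = F₀ w := by
  let _ : Module (T ⊗[k] A) (A →ₗ[k] T) := Module.compHom _ (actTA k T A).toRingHom
  have hs : ∀ (r : T ⊗[k] A) (f : A →ₗ[k] T), r • f = actTA k T A r f := fun _ _ => rfl
  let j₀ : W → A →ₗ[k] T := fun w =>
    { toFun := fun x => F₀ (ι x • w)
      map_add' := fun x y => by rw [map_add, add_smul, map_add]
      map_smul' := fun c x => by
        rw [Algebra.smul_def, map_mul, mul_smul, hk, RingHom.id_apply] }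
  have hj₀ : ∀ w x, j₀ w x = F₀ (ι x • w) := fun _ _ => rfl
  have hj : ∀ c w, j₀ (c • w) = φ c • j₀ w := by
    refine hC (fun c => ∀ w, j₀ (c • w) = φ c • j₀ w) (fun w => ?_) (fun x y hx hy w => ?_)
      (fun τ t a h1 h2 w => ?_)
    · rw [map_zero, zero_smul, zero_smul]
      ext x
      rw [hj₀, smul_zero, map_zero, LinearMap.zero_apply]
    · rw [map_add, add_smul, add_smul, ← hx, ← hy]
      ext z
      rw [LinearMap.add_apply, hj₀, hj₀, hj₀, smul_add, map_add]
    · ext x
      rw [map_mul, h1, hι, Algebra.TensorProduct.tmul_mul_tmul, mul_one, one_mul, hs, actTA_tmul,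
        hj₀, hj₀, ← h2, smul_smul, smul_smul, map_mul, mul_comm (ι x), mul_assoc]
  let j : W →ₛₗ[φ] (A →ₗ[k] T) :=
    { toFun := j₀
      map_add' := fun v w => by
        ext x
        rw [LinearMap.add_apply, hj₀, hj₀, hj₀, smul_add, map_add]
      map_smul' := hj }
  obtain ⟨g, hg, -⟩ := hu _ j
  refine ⟨⟨⟨fun m => g m 1, ?_⟩, fun m n => ?_⟩, fun t m => ?_, fun w => ?_⟩
  · rw [map_zero, LinearMap.zero_apply]
  · show g (m + n) 1 = g m 1 + g n 1
    rw [map_add, LinearMap.add_apply]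
  · show g (_ • m) 1 = t * g m 1
    rw [map_smul, hs, actTA_tmul, mul_one]
  · show g (i w) 1 = F₀ w
    rw [hg]
    show F₀ (ι 1 • w) = F₀ w
    rw [map_one, one_smul]

theorem bc_span {B C W M : Type} [CommRing B] [CommRing C] [AddCommGroup W] [Module C W]
    [AddCommGroup M] [Module B M] {φ : C →+* B} (i : W →ₛₗ[φ] M)
    (hu : ∀ (P : Type) [AddCommGroup P] [Module B P] (j : W →ₛₗ[φ] P),
      ∃! g : M →ₗ[B] P, ∀ x, g (i x) = j x) : Submodule.span B (Set.range i) = ⊤ := by
  obtain ⟨g, -, hg⟩ := hu (M ⧸ Submodule.span B (Set.range i)) 0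
  have h1 := hg (Submodule.span B (Set.range i)).mkQ fun x =>
    (Submodule.Quotient.mk_eq_zero _).2 (Submodule.subset_span ⟨x, rfl⟩)
  have h2 := hg 0 fun _ => rfl
  rw [← Submodule.ker_mkQ (Submodule.span B (Set.range i)), h1, ← h2, LinearMap.ker_zero]

end Pool.Agent.Ptt
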