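import Pool.Agent.P.MP_2ce3e7_ag.Ptt.C
import Pool.Agent.P.MP_2ce3e7_ag.Ptt.H

/-! The determinant around a triangle vanishes on the relations. -/

set_option autoImplicit false

namespace Pool.Agent.Ptt

open Function Filter CXD
open scoped TensorProduct Polynomial

section
variable (T : Type) {B : Type} [CommRing T] [CommRing B] [Algebra T B] {ℬ : ℤ → Set B}

/-- the underlying `T`-module -/
def Mo (_T : Type) (V : GM ℬ) : Type := V.M

instance (V : GM ℬ) : AddCommGroup (Mo T V) := V.acg

instance (V : GM ℬ) : Module T (Mo T V) := Module.compHom V.M (algebraMap T B)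

/-- the part of degree `d` -/
def Pc (V : GM ℬ) (d : ℤ) : Submodule T (Mo T V) := Submodule.span T (Set.range (V.π d))

/-- a graded algebra with finite parts -/
structure Gr (ℬ : ℤ → Set B) : Prop where
  alg : ∀ t : T, algebraMap T B t ∈ ℬ 0
  ind : ∀ p : B → Prop, p 0 → (∀ c, ∀ a ∈ ℬ c, p a) → (∀ a b, p a → p b → p (a + b)) → ∀ a, p a
  fin : ∀ c, ∃ S : Finset B, ℬ c ⊆ Submodule.span T (S : Set B)

variable {T} (h : Gr T ℬ) (V : GM ℬ) (d : ℤ)

/-- the projection onto the part of degree `d` -/
def pr : Mo T V →ₗ[T] Pc T V d where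
  toFun x := ⟨V.π d x, Submodule.subset_span ⟨x, rfl⟩⟩
  map_add' x y := Subtype.ext (map_add (V.π d) x y)
  map_smul' t x := Subtype.ext (by
    have := V.π_smul 0 d _ (h.alg t) x
    rw [zero_add] at this
    exact this)

include h

theorem pr_self (x : Pc T V d) : pr h V d x = x := by
  obtain ⟨x, hx⟩ := x
  induction hx using Submodule.span_induction with
  | mem x hx => obtain ⟨y, rfl⟩ := hx; exact Subtype.ext (V.π_self d y)
  | zero => exact map_zero _
  | add x y _ _ hx hy => exact (map_add _ x y).trans (congrArg₂ _ hx hy)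
  | smul t x _ hx => exact (map_smul _ t x).trans (congrArg _ hx)

theorem pi_self (x : Pc T V d) : V.π d x.1 = x.1 := congrArg Subtype.val (pr_self h V d x)

theorem pc_finite [IsNoetherianRing T] (hV : Module.Finite B V.M) : Module.Finite T (Pc T V d) := by
  obtain ⟨G, hG⟩ := hV.1
  choose s hs using V.sum_π
  choose S hS using h.fin
  let N : Submodule T (Mo T V) := Submodule.span T
    (⋃ v ∈ (G : Set V.M), ⋃ e ∈ (s v : Set ℤ), (fun a : B => a • V.π e v) '' S (d - e))
  have hN : N.FG := Submodule.fg_span (G.finite_toSet.biUnion fun v _ =>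
    (s v).finite_toSet.biUnion fun e _ => (S _).finite_toSet.image _)
  have key : ∀ m ∈ Submodule.span B (G : Set V.M), ∀ b : B, V.π d (b • m) ∈ N := fun m hm => by
    induction hm using Submodule.span_induction with
    | mem v hv =>
      refine h.ind _ (by rw [zero_smul, map_zero]; exact N.zero_mem) (fun c a ha => ?_)
        fun a b ha hb => by rw [add_smul, map_add]; exact N.add_mem ha hb
      rw [← add_sub_cancel c d, V.π_smul c _ a ha]
      by_cases e : d - c ∈ s v
      · have ha' := hS c ha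
        clear ha
        induction ha' using Submodule.span_induction with
        | mem a ha =>
          exact Submodule.subset_span (Set.mem_biUnion hv (Set.mem_biUnion e
            ⟨a, by rwa [sub_sub_cancel], rfl⟩))
        | zero => rw [zero_smul]; exact N.zero_mem
        | add a b _ _ ha hb => rw [add_smul]; exact N.add_mem ha hb
        | smul t a _ ha => rw [Algebra.smul_def, mul_smul]; exact N.smul_mem t ha
      · rw [← hs v, map_sum, Finset.sum_eq_zero fun x hx => V.π_ne (d - c) x v fun e' =>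
          e (e' ▸ hx), smul_zero]
        exact N.zero_mem
    | zero => intro b; rw [smul_zero, map_zero]; exact N.zero_mem
    | add x y _ _ hx hy => intro b; rw [smul_add, map_add]; exact N.add_mem (hx b) (hy b)
    | smul a x _ hx => intro b; rw [smul_smul]; exact hx _
  have le : Pc T V d ≤ N := Submodule.span_le.2 (by
    rintro _ ⟨x, rfl⟩
    have := key x (hG ▸ trivial) 1
    rwa [one_smul] at this)
  have := isNoetherian_of_fg_of_noetherian N hN
  exact Module.Finite.of_injective _ (Submodule.inclusion_injective le)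

variable {T' C : Type} [CommRing T'] [CommRing C] [Algebra T' C] {𝒞 : ℤ → Set C} (h' : Gr T' 𝒞)
  {V} {W : GM 𝒞} {φ : T' →+* T} (i : W.M →+ V.M) (hπ : ∀ x, i (W.π d x) = V.π d (i x))
  (hs : ∀ t x, i (algebraMap T' C t • x) = algebraMap T B (φ t) • i x)

omit h in
/-- a map in degree `d` -/
def rs : Pc T' W d →ₛₗ[φ] Pc T V d where
  toFun x := ⟨i x.1, Submodule.subset_span ⟨i x.1,
    (hπ x.1).symm.trans (congrArg i (pi_self h' W d x))⟩⟩
  map_add' x y := Subtype.ext (map_add i x.1 y.1)
  map_smul' t x := Subtype.ext (hs t x.1)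

theorem rs_surj (hi : Surjective i) : Surjective (rs d h' i hπ hs) := fun y => by
  obtain ⟨x, hx⟩ := hi y.1
  exact ⟨pr h' W d x, Subtype.ext ((hπ x).trans (hx ▸ pi_self h V d y))⟩

theorem split [IsNoetherianRing T] {M N P : GM ℬ} (hS : Ses M N P) (hP : Module.Finite B P.M)
    [Module.Flat T (Pc T P d)] : Nonempty (Pc T N d ≃ₗ[T] Pc T M d × Pc T P d) := by
  obtain ⟨f, g, hf, hg, h1, h2, h3⟩ := hS
  have := pc_finite h P d hP
  have := Module.finitePresentation_of_finite T (Pc T P d)
  have : Module.Projective T (Pc T P d) := Module.Flat.projective_of_finitePresentation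
  let f' := rs d h (φ := RingHom.id T) f.toAddMonoidHom (hf d) fun t x => f.map_smul _ x
  let g' := rs d h (φ := RingHom.id T) g.toAddMonoidHom (hg d) fun t x => g.map_smul _ x
  have ex : Exact f' g' := fun y => ⟨fun e => by
    obtain ⟨x, hx⟩ := (h3 y.1).1 (congrArg Subtype.val e)
    exact ⟨pr h M d x, Subtype.ext ((hf d x).trans (hx ▸ pi_self h N d y))⟩,
    by rintro ⟨x, rfl⟩; exact Subtype.ext (h3.apply_apply_eq_zero x.1)⟩
  obtain ⟨l, hl⟩ := Module.projective_lifting_property g' LinearMap.id (rs_surj h d h _ _ _ h2)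
  exact ⟨(ex.splitSurjectiveEquiv (fun x y e => Subtype.ext (h1 (congrArg Subtype.val e)))
    ⟨l, hl⟩).1⟩

end

variable {k T A E : Type} [Field k] [CommRing T] [Algebra k T] [CommRing A] [Algebra k A]
  [CommRing E] {𝒜 : ℤ → Set A} (h : Gr k 𝒜)
include h

theorem Gr.tgr (T : Type) [CommRing T] [Algebra k T] : Gr T (tgr k T 𝒜) where
  alg t := ⟨t, 1, by simpa using h.alg 1, rfl⟩
  ind p h0 h1 h2 x := by
    induction x using TensorProduct.induction_on with
    | zero => exact h0
    | tmul t a =>
      exact h.ind (fun a => p (t ⊗ₜ a)) (by simpa using h0) (fun c a ha => h1 c _ ⟨t, a, ha, rfl⟩)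
        (fun a b ha hb => by simpa [TensorProduct.tmul_add] using h2 _ _ ha hb) a
    | add x y hx hy => exact h2 _ _ hx hy
  fin c := by
    classical
    obtain ⟨S, hS⟩ := h.fin c
    refine ⟨S.image fun a => 1 ⊗ₜ a, ?_⟩
    rintro _ ⟨t, a, ha, rfl⟩
    have ha' := hS ha
    clear ha
    induction ha' using Submodule.span_induction generalizing t with
    | mem a ha =>
      rw [← mul_one t, ← smul_eq_mul, ← TensorProduct.smul_tmul']
      exact Submodule.smul_mem _ _ (Submodule.subset_span (by simpa using ⟨a, ha, rfl⟩))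
    | zero => simp
    | add a b _ _ ha hb => rw [TensorProduct.tmul_add]; exact Submodule.add_mem _ (ha t) (hb t)
    | smul c a _ ha => rw [← TensorProduct.smul_tmul]; exact ha _

theorem inv_pull [IsDomain E] [IsNoetherianRing T] {F : Type} [CommRing F] (𝒯 : Tri T E F)
    {N : GM 𝒜} (hN : Module.Finite A N.M) {M : GM (tgr k T 𝒜)}
    (hb : BC (Algebra.TensorProduct.includeRight : A →ₐ[k] T ⊗[k] A).toRingHom N M) (d : ℤ) :
    Inv 𝒯 (Pc T M d) 1 := by
  obtain ⟨i, hπ, hu⟩ := hb
  have := pc_finite h N d hN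
  let b := Module.finBasis k (Pc k N d)
  have hF := fun r => coind i hu (RingHom.id A) (fun _ => rfl)
    ((Algebra.linearMap k T ∘ₗ b.coord r ∘ₗ pr h N d).toAddMonoidHom : N.M →+ T)
    (fun c w => (Algebra.linearMap k T ∘ₗ b.coord r ∘ₗ pr h N d).map_smul c w)
    fun p _ _ hp a => by simpa using hp 1 1 a rfl (by simp)
  choose Φ h1 h2 using hF
  replace h2 : ∀ r w, Φ r (i w) = algebraMap k T (b.repr (pr h N d w) r) := h2
  let j : Pc k N d →ₛₗ[algebraMap k T] Pc T M d := rs d h i.toAddMonoidHom (hπ d) fun c x =>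
    (i.map_smulₛₗ _ x).trans (congrArg (· • i x)
      ((Algebra.TensorProduct.includeRight : A →ₐ[k] T ⊗[k] A).commutes c))
  let f : Mo T M →ₗ[T] Fin (Module.finrank k (Pc k N d)) → T :=
    { toFun := fun m r => Φ r m
      map_add' := fun x y => funext fun r => map_add (Φ r) x y
      map_smul' := fun t x => funext fun r => h1 r t x }
  let f' := Fintype.linearCombination T fun r => j (b r)
  have key : ∀ m ∈ Submodule.span (T ⊗[k] A) (Set.range i), ∀ x : T ⊗[k] A,
      (f' ∘ₗ f) (x • m :) = pr (h.tgr T) M d (x • m :) := fun m hm => by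
    induction hm using Submodule.span_induction with
    | mem m hm =>
      obtain ⟨n, rfl⟩ := hm
      intro x
      induction x using TensorProduct.induction_on with
      | zero => rw [zero_smul]; exact (map_zero _).trans (map_zero _).symm
      | tmul t a =>
        have e : (t ⊗ₜ[k] a) • i n = algebraMap T (T ⊗[k] A) t • i (a • n) := by
          rw [i.map_smulₛₗ, smul_smul]
          simp
        rw [e]
        refine (map_smul _ t _).trans ((congrArg _ ?_).trans (map_smul _ t _).symm)
        refine Eq.trans ?_ ((congrArg j (b.sum_repr (pr h N d (a • n :)))).trans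
          (Subtype.ext (hπ d _)))
        rw [map_sum]
        refine (Fintype.linearCombination_apply T (fun r => j (b r)) _).trans
          (Finset.sum_congr rfl fun r _ => ?_)
        rw [j.map_smulₛₗ]
        exact congrArg (· • j (b r)) (h2 r _)
      | add x y hx hy =>
        rw [add_smul]
        exact (map_add _ _ _).trans ((congrArg₂ _ hx hy).trans (map_add _ _ _).symm)
    | zero => intro x; rw [smul_zero]; exact (map_zero _).trans (map_zero _).symm
    | add x y _ _ hx hy =>
      intro a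
      rw [smul_add]
      exact (map_add _ _ _).trans ((congrArg₂ _ (hx a) (hy a)).trans (map_add _ _ _).symm)
    | smul a x _ hx => intro c; rw [smul_smul]; exact hx _
  refine inv_free (h := f ∘ₗ (Pc T M d).subtype) (h' := f') ⟨fun m => ?_, fun v => ?_⟩
  · have k1 : ∀ m : M.M, (f' ∘ₗ f) m = pr (h.tgr T) M d m := fun m => by
      have := key m (bc_span i hu ▸ trivial) 1
      rwa [one_smul] at this
    rw [one_smul]
    exact (k1 m.1).trans (pr_self _ _ _ m)
  · have e : ∀ r s, f (j (b r)).1 s = if r = s then 1 else 0 := fun r s => by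
      refine (h2 s _).trans ?_
      rw [pr_self, b.repr_self, Finsupp.single_apply, apply_ite (algebraMap k T), map_one, map_zero]
    funext s
    simp [f', Fintype.linearCombination_apply, e]

/-- the triangle times a line -/
noncomputable def Tri.line {R E F : Type} [CommRing R] [CommRing E] [CommRing F] (𝒯 : Tri R E F) :
    Tri R[X] E[X] F[X] where
  e i := Polynomial.mapRingHom (𝒯.e i)
  s := Polynomial.mapRingHom 𝒯.s
  t := Polynomial.mapRingHom 𝒯.t
  st i r := Polynomial.ext fun n => by simp [𝒯.st]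

theorem inv_fib [IsDomain E] (𝒯 : Tri T E k) (n : ℕ) {W : GM (tgr k T[X] 𝒜)} {M : GM (tgr k T 𝒜)}
    (hb : BC (evm k T A n) W M) (d : ℤ) {δ : k[X]} (hW : Inv 𝒯.line (Pc T[X] W d) δ) :
    Inv 𝒯 (Pc T M d) (δ.eval (n : k)) := by
  obtain ⟨i, hπ, hu⟩ := hb
  have ev : ∀ (p : T[X]) (a : A), evm k T A n (p ⊗ₜ a) = p.eval (n : T) ⊗ₜ a := fun p a => by
    simp [evm]
  have su : Surjective (evm k T A n) := fun x => by
    induction x using TensorProduct.induction_on with
    | zero => exact ⟨0, map_zero _⟩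
    | tmul t a => exact ⟨Polynomial.C t ⊗ₜ a, by simp [ev]⟩
    | add x y hx hy =>
      obtain ⟨x, rfl⟩ := hx
      obtain ⟨y, rfl⟩ := hy
      exact ⟨x + y, map_add _ _ _⟩
  have si : Surjective i := fun m => by
    have hm : m ∈ Submodule.span (T ⊗[k] A) (Set.range i) := bc_span i hu ▸ trivial
    induction hm using Submodule.span_induction with
    | mem m hm => exact hm
    | zero => exact ⟨0, map_zero _⟩
    | add x y _ _ hx hy =>
      obtain ⟨x, rfl⟩ := hx
      obtain ⟨y, rfl⟩ := hy
      exact ⟨x + y, map_add _ _ _⟩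
    | smul a x _ hx =>
      obtain ⟨x, rfl⟩ := hx
      obtain ⟨a, rfl⟩ := su a
      exact ⟨a • x, i.map_smulₛₗ _ _⟩
  refine inv_desc (𝒮 := 𝒯.line) (φ := Polynomial.evalRingHom (n : T))
    (Polynomial.evalRingHom (n : E)) (Polynomial.evalRingHom (n : k))
    (fun i r => Polynomial.eval_natCast_map _ _ _) (fun _ => Polynomial.eval_natCast_map _ _ _)
    (fun _ => Polynomial.eval_natCast_map _ _ _)
    (rs d (h.tgr T[X]) i.toAddMonoidHom (hπ d) fun t x => (i.map_smulₛₗ _ x).trans
      (congrArg (· • i x) (ev t 1)))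
    (fun t => ⟨Polynomial.C t, Polynomial.eval_C⟩) (rs_surj (h.tgr T) d _ _ _ _ si)
    (fun w hw f => ?_) hW
  let g := f ∘ₗ pr (h.tgr T[X]) W d
  have sm : ∀ (p : T[X]) (w : W.M), (g ((p ⊗ₜ[k] (1 : A)) • w :)).eval (n : T) =
      p.eval (n : T) * (g w).eval (n : T) := fun p w =>
    (congrArg _ (g.map_smul p w)).trans Polynomial.eval_mul
  obtain ⟨Φ, -, h2⟩ := coind i hu
    (Algebra.TensorProduct.includeRight : A →ₐ[k] T[X] ⊗[k] A).toRingHom (fun a => by simp [ev])
    ((Polynomial.evalRingHom (n : T)).toAddMonoidHom.comp g.toAddMonoidHom) (fun c w => by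
      have e : (Algebra.TensorProduct.includeRight : A →ₐ[k] T[X] ⊗[k] A).toRingHom
          (algebraMap k A c) = Polynomial.C (algebraMap k T c) ⊗ₜ[k] (1 : A) :=
        (AlgHom.commutes _ c).trans rfl
      rw [e, Algebra.smul_def]
      exact (sm _ w).trans (by rw [Polynomial.eval_C]; rfl)) fun p h0 h1 h2 x => by
      induction x using TensorProduct.induction_on with
      | zero => exact h0
      | tmul t a => simpa using h2 (t ⊗ₜ 1) _ a (ev t 1) (sm t)
      | add x y hx hy => exact h1 _ _ hx hy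
  have := h2 w.1
  rw [show i w.1 = 0 from congrArg Subtype.val hw, map_zero] at this
  exact (congrArg (fun x => (f x).eval (n : T)) (pr_self _ _ _ w)).symm.trans this.symm

open Classical in
/-- the determinant as a unit of the field -/
noncomputable def dl (𝒯 : Tri T E k) (P : Type) [AddCommGroup P] [Module T P] : kˣ :=
  if h : ∃ δ : kˣ, Inv 𝒯 P (δ : k) then h.choose else 1

omit h [Algebra k T] in
theorem dl_eq [IsDomain E] {𝒯 : Tri T E k} (hu : ∀ μ, IsUnit μ → 𝒯.s μ = 𝒯.t μ) {P : Type}
    [AddCommGroup P] [Module T P] {δ : kˣ} (hP : Inv 𝒯 P (δ : k)) : dl 𝒯 P = δ := by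
  have e : ∃ δ : kˣ, Inv 𝒯 P (δ : k) := ⟨δ, hP⟩
  rw [dl, dif_pos e]
  exact Units.ext (inv_uniq hu e.choose_spec hP)

theorem rel_eq [IsDomain E] [IsNoetherianRing E] [UniqueFactorizationMonoid E] [IsNoetherianRing T]
    (𝒯 : Tri T E k) (hu : ∀ μ, IsUnit μ → 𝒯.s μ = 𝒯.t μ) {y} (hy : y ∈ relsP k T 𝒜) :
    ∀ᶠ d : ℤ in atTop, FreeAbelianGroup.lift
      (fun V : FGM (tgr k T 𝒜) => Additive.ofMul (dl 𝒯 (Pc T V.1 d))) y = 0 := by
  have g := h.tgr T
  induction hy using AddSubgroup.closure_induction with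
  | zero => exact .of_forall fun _ => map_zero _
  | add x y _ _ hx hy => filter_upwards [hx, hy] with d hx hy using by rw [map_add, hx, hy, add_zero]
  | neg x _ hx => filter_upwards [hx] with d hx using by rw [map_neg, hx, neg_zero]
  | mem y hy =>
    rcases hy with ⟨M, N, P, hS, hM, hN, hP, rfl⟩ | ⟨M, hM, rfl⟩ | ⟨W, M, N, hW, hM, hN, rfl⟩ |
      ⟨N, M, hb, rfl⟩
    · filter_upwards [hM, hN, hP] with d hM hN hP
      have : Module.Flat T (Pc T M.1 d) := hM
      have : Module.Flat T (Pc T N.1 d) := hN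
      have : Module.Flat T (Pc T P.1 d) := hP
      have := pc_finite g M.1 d M.2
      have := pc_finite g N.1 d N.2
      have := pc_finite g P.1 d P.2
      obtain ⟨j⟩ := split g d hS P.2
      obtain ⟨_, ⟨a, rfl⟩, ha⟩ := exists_inv (𝒯 := 𝒯) (P := Pc T N.1 d)
      obtain ⟨_, ⟨b, rfl⟩, hb⟩ := exists_inv (𝒯 := 𝒯) (P := Pc T M.1 d)
      obtain ⟨_, ⟨c, rfl⟩, hc⟩ := exists_inv (𝒯 := 𝒯) (P := Pc T P.1 d)
      obtain rfl : a = b * c := Units.ext (inv_mul hu j ha hb hc)
      simp only [map_sub, FreeAbelianGroup.lift_apply_of, dl_eq hu ha, dl_eq hu hb, dl_eq hu hc,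
        ofMul_mul]
      abel
    · filter_upwards [hM] with d hM
      have : Subsingleton (Pc T M.1 d) := ⟨fun x y => Subtype.ext (by
        rw [← pi_self g _ _ x, ← pi_self g _ _ y, hM]
        rfl)⟩
      rw [FreeAbelianGroup.lift_apply_of, dl_eq hu (δ := 1) inv_zero, ofMul_one]
    · filter_upwards [hW] with d hW
      have : Module.Flat T[X] (Pc T[X] W.1 d) := hW
      have := pc_finite (h.tgr T[X]) W.1 d W.2
      obtain ⟨δ, hδ, hi⟩ := exists_inv (𝒯 := 𝒯.line) (P := Pc T[X] W.1 d)
      obtain ⟨_, ⟨c, rfl⟩, rfl⟩ := Polynomial.isUnit_iff.1 hδ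
      have h0 := inv_fib h 𝒯 0 (M := M.1) (by rwa [Nat.cast_zero]) d hi
      have h1 := inv_fib h 𝒯 1 (M := N.1) (by rwa [Nat.cast_one]) d hi
      rw [Polynomial.eval_C] at h0 h1
      simp only [map_sub, FreeAbelianGroup.lift_apply_of, dl_eq hu h0, dl_eq hu h1, sub_self]
    · exact .of_forall fun d => by
        rw [FreeAbelianGroup.lift_apply_of, dl_eq hu (δ := 1) (inv_pull h 𝒯 N.2 hb d), ofMul_one]

end Pool.Agent.Ptt
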