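import Pool.Agent.P.MP_2ce3e7_ag.Ptt.Top
import Pool.Agent.P.MP_dd457d_ag.Bav.ChartD

/-! The failure over a field with a unit of infinite order: for an ideal spanned by forms, and for
the ideal of a nonempty set of points. -/

set_option autoImplicit false

namespace Pool.Agent.Ptt

open CXD MvPolynomial

theorem not_par_span {k σ : Type} [Field k] [Fintype σ] {u : k} (hu : u ≠ 0)
    (hu' : ∀ n, 0 < n → u ^ n ≠ 1) (S : Set (MvPolynomial σ k))
    (hS : ∀ f ∈ S, ∃ n, f.IsHomogeneous n) (hX : ∃ i, ∀ n, X i ^ n ∉ Ideal.span S) :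
    ¬ Par k (Sph k 1) (hom (Ideal.span S)) (crd (Ideal.span S)) := by
  let _ := MvPolynomial.gradedAlgebra (σ := σ) (R := k)
  exact not_par hu hu' _ (fun f hf n => homogeneousComponent_mem_of_mem
    (Ideal.homogeneous_span (homogeneousSubmodule σ k) S fun x hx => hS x hx) hf n) hX

theorem not_par_idk {k G τ : Type} [Field k] [Fintype τ] {u : k} (hu : u ≠ 0)
    (hu' : ∀ n, 0 < n → u ^ n ≠ 1) (p : G → τ → AlgebraicClosure k) {y : G} (hy : p y ≠ 0) :
    ¬ Par k (Sph k 1) (hom (Bav.idk k p)) (crd (Bav.idk k p)) := by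
  refine not_par hu hu' _ (fun f hf d => ?_) ?_
  · have h := Bav.homI_idl p d _ hf
    have e : homogeneousComponent d (map (algebraMap k (AlgebraicClosure k)) f) =
        map (algebraMap k (AlgebraicClosure k)) (homogeneousComponent d f) := by
      ext s
      rw [coeff_map, coeff_homogeneousComponent, coeff_homogeneousComponent, coeff_map]
      split_ifs <;> simp
    rw [e] at h
    exact h
  · obtain ⟨i, hi⟩ := Function.ne_iff.1 hy
    refine ⟨i, fun n h => hi ?_⟩
    have h1 := Bav.mem_idl.1 h 1 y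
    rw [map_pow, map_X, map_pow, eval_X, one_smul] at h1
    exact eq_zero_of_pow_eq_zero h1

end Pool.Agent.Ptt
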