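import Pool.Agent.P.MP_2ce3e7_ag.Ptt.X

/-! Over a field with a unit of infinite order the bundles on the triangle are not torsion. -/

set_option autoImplicit false

namespace Pool.Agent.Ptt

open Function Filter CXD Fintype
open scoped TensorProduct Polynomial

section
variable {k T A : Type} [Field k] [CommRing T] [Algebra k T] [CommRing A] [Algebra k A]
  {𝒜 : ℤ → Set A} (ϖ : ℤ → A →ₗ[k] A) (h1 : ∀ d x, ϖ d (ϖ d x) = ϖ d x)
  (h2 : ∀ d e x, d ≠ e → ϖ d (ϖ e x) = 0) (h3 : ∀ x, ∃ s : Finset ℤ, ∑ d ∈ s, ϖ d x = x)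
  (h4 : ∀ c d, ∀ a ∈ 𝒜 c, ∀ x, ϖ (c + d) (a * x) = a * ϖ d x) (ε : Fin 2 → Fin 2 → T)

/-- the image of the idempotent -/
def img (A : Type) [CommRing A] [Algebra k A] : Submodule (T ⊗[k] A) (Fin 2 → T ⊗[k] A) where
  carrier := {m | ∀ i, ε i 0 • m 0 + ε i 1 • m 1 = m i}
  add_mem' {x y} hx hy i := by
    simp only [Pi.add_apply, smul_add]
    rw [add_add_add_comm, hx, hy]
  zero_mem' i := by simp
  smul_mem' c x hx i := by
    simp only [Pi.smul_apply, smul_eq_mul, ← mul_smul_comm]
    rw [← mul_add, hx]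

include h2 h3 in
theorem sum_bc (x : T ⊗[k] A) :
    ∀ᶠ s : Finset ℤ in atTop, ∑ d ∈ s, (ϖ d).baseChange T x = x := by
  induction x using TensorProduct.induction_on with
  | zero => simp
  | tmul t a =>
    obtain ⟨s, hs⟩ := h3 a
    filter_upwards [eventually_ge_atTop s] with s' h
    simp only [LinearMap.baseChange_tmul, ← TensorProduct.tmul_sum]
    rw [← Finset.sum_subset h fun d _ hd => ?_, hs]
    rw [← hs, map_sum]
    exact Finset.sum_eq_zero fun e he => h2 _ _ _ fun e' => hd (e' ▸ he)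
  | add x y hx hy =>
    filter_upwards [hx, hy] with s hx hy
    simp only [map_add, Finset.sum_add_distrib, hx, hy]

/-- the line bundle -/
def bun : GM (tgr k T 𝒜) where
  M := img (k := k) ε A
  π d :=
    { toFun := fun m => ⟨fun j => (ϖ d).baseChange T (m.1 j), fun i => by
        rw [← map_smul, ← map_smul, ← map_add, m.2]⟩
      map_zero' := Subtype.ext (funext fun _ => map_zero _)
      map_add' := fun x y => Subtype.ext (funext fun _ => map_add _ _ _) }
  π_self d x := Subtype.ext (funext fun j => by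
    change (ϖ d).baseChange T ((ϖ d).baseChange T (x.1 j)) = (ϖ d).baseChange T (x.1 j)
    rw [← LinearMap.comp_apply, ← LinearMap.baseChange_comp,
      show ϖ d ∘ₗ ϖ d = ϖ d from LinearMap.ext (h1 d)])
  π_ne d e x h := Subtype.ext (funext fun j => by
    change (ϖ d).baseChange T ((ϖ e).baseChange T (x.1 j)) = 0
    rw [← LinearMap.comp_apply, ← LinearMap.baseChange_comp,
      show ϖ d ∘ₗ ϖ e = 0 from LinearMap.ext fun y => h2 d e y h, LinearMap.baseChange_zero]
    rfl)
  sum_π x := by
    obtain ⟨s, hs⟩ := (eventually_all.2 fun j => sum_bc ϖ h2 h3 (x.1 j)).exists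
    refine ⟨s, Subtype.ext (funext fun j => ?_)⟩
    rw [Submodule.coe_sum, Finset.sum_apply]
    exact hs j
  π_smul := by
    rintro c d _ ⟨t, a, ha, rfl⟩ x
    refine Subtype.ext (funext fun j => ?_)
    change (ϖ (c + d)).baseChange T (t ⊗ₜ a * x.1 j) = t ⊗ₜ a * (ϖ d).baseChange T (x.1 j)
    induction x.1 j using TensorProduct.induction_on with
    | zero => simp
    | tmul s b => simp [h4 c d a ha]
    | add y z hy hz => simp only [mul_add, map_add, hy, hz]

variable {ε} {E F : Type} [CommRing E] [CommRing F] {𝒯 : Tri T E F} {p q : Fin 3 → Fin 2 → E}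
  {c : Fin 3 → F} (h : Idm 𝒯 ε p q c)
include h

theorem Idm.col (j : Fin 2) (x : T ⊗[k] A) : (fun i => ε i j • x) ∈ img (k := k) ε A := fun i => by
  simp only [smul_smul, ← add_smul]
  refine congrArg (· • x) ?_
  linear_combination h.rk i 0 0 j + h.rk i 1 1 j + ε i j * h.tr

theorem Idm.row (m : img (k := k) ε A) (i j : Fin 2) : ε i j • m.1 j = ε j j • m.1 i := by
  rw [← m.2 i, ← congrArg (ε i j • ·) (m.2 j)]
  simp only [smul_add, smul_smul, h.rk i j j, mul_comm (ε j j)]

theorem Idm.vb {σ : Type} (z : σ → T ⊗[k] A) : VB z 1 (bun ϖ h1 h2 h3 h4 ε) := by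
  intro P hP _
  obtain ⟨j, hj⟩ : ∃ j, algebraMap T (T ⊗[k] A) (ε j j) ∉ P := by
    by_contra hn
    have k := fun j => not_not.1 (not_exists.1 hn j)
    have := P.add_mem (k 0) (k 1)
    rw [← map_add, h.tr, map_one] at this
    exact hP.ne_top (P.eq_top_iff_one.2 this)
  refine Fr.local (P := img (k := k) ε A)
    (h := LinearMap.pi fun _ => LinearMap.proj j ∘ₗ Submodule.subtype _)
    (h' := (LinearMap.toSpanSingleton _ _ ⟨_, h.col j 1⟩) ∘ₗ LinearMap.proj 0)
    ⟨fun m => Subtype.ext (funext fun i => ?_), fun v => funext fun i => ?_⟩ P hj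
  · change m.1 j * ε i j • 1 = algebraMap T _ (ε j j) * m.1 i
    rw [mul_smul_comm, mul_one, ← Algebra.smul_def]
    exact h.row m i j
  · change v 0 * ε j j • 1 = algebraMap T _ (ε j j) * v i
    rw [Subsingleton.elim i 0, mul_smul_comm, mul_one, Algebra.smul_def]

theorem Idm.finite : Module.Finite (T ⊗[k] A) (img (k := k) ε A) :=
  Module.Finite.of_surjective (Fintype.linearCombination _ fun j => ⟨_, h.col j 1⟩) fun m =>
    ⟨m.1, Subtype.ext (funext fun i => by
      rw [Fintype.linearCombination_apply, Fin.sum_univ_two, ← m.2 i]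
      change m.1 0 * ε i 0 • 1 + m.1 1 * ε i 1 • 1 = _
      rw [mul_smul_comm, mul_smul_comm, mul_one, mul_one])⟩

theorem Idm.inv_bun [IsDomain E] (d : ℤ) [Module.Finite k (LinearMap.range (ϖ d))] :
    Inv 𝒯 (Pc T (bun ϖ h1 h2 h3 h4 ε) d)
      ((∏ i, c i) ^ Module.finrank k (LinearMap.range (ϖ d))) := by
  let b := Module.finBasis k (LinearMap.range (ϖ d))
  let co := fun r => (TensorProduct.AlgebraTensorModule.rid k T T).toLinearMap ∘ₗ
    (b.coord r ∘ₗ (ϖ d).rangeRestrict).baseChange T
  let f := Fintype.linearCombination T fun r => (1 : T) ⊗ₜ[k] (b r).1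
  have fx : ∀ y : LinearMap.range (ϖ d), ϖ d y = y := by
    rintro ⟨_, y, rfl⟩
    exact h1 d y
  have e1 : ∀ x, f (fun r => co r x) = (ϖ d).baseChange T x := fun x => by
    induction x using TensorProduct.induction_on with
    | zero => simp [f, Fintype.linearCombination_apply]
    | tmul t a =>
      have : _ = ϖ d a := congrArg Subtype.val (b.sum_repr ((ϖ d).rangeRestrict a))
      rw [LinearMap.baseChange_tmul, ← this, Submodule.coe_sum, TensorProduct.tmul_sum]
      simp [f, co, Fintype.linearCombination_apply, TensorProduct.smul_tmul']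
    | add x y hx hy =>
      simp only [map_add, ← hx, ← hy]
      exact map_add f _ _
  have e2 : ∀ v r, co r (f v) = v r := fun v r => by
    have : ∀ s, (ϖ d).rangeRestrict (b s).1 = b s := fun s => Subtype.ext (fx _)
    simp [f, co, Fintype.linearCombination_apply, this, Finsupp.single_apply]
  have e3 : ∀ v, (ϖ d).baseChange T (f v) = f v := fun v => by
    rw [← e1]
    exact congrArg f (funext (e2 v))
  have e4 : ∀ (m : Pc T (bun ϖ h1 h2 h3 h4 ε) d) j, (ϖ d).baseChange T (m.1.1 j) = m.1.1 j := by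
    rintro ⟨m, hm⟩ j
    induction hm using Submodule.span_induction with
    | mem x hx =>
      obtain ⟨y, rfl⟩ := hx
      exact congrFun (congrArg Subtype.val ((bun ϖ h1 h2 h3 h4 ε).π_self d y)) j
    | zero => exact map_zero _
    | add x y _ _ hx hy => exact (map_add _ _ _).trans (congrArg₂ _ hx hy)
    | smul t x _ hx =>
      change (ϖ d).baseChange T (algebraMap T _ t * x.1 j) = algebraMap T _ t * x.1 j
      rw [← Algebra.smul_def, map_smul]
      exact congrArg _ hx
  have := h.inv (P := Pc T (bun ϖ h1 h2 h3 h4 ε) d)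
    (fun j =>
      { toFun := fun m r => co r (m.1.1 j)
        map_add' := fun x y => funext fun r => map_add (co r) _ _
        map_smul' := fun t x => funext fun r =>
          (congrArg (co r) (Algebra.smul_def t _).symm).trans (map_smul _ _ _) })
    (fun j =>
      { toFun := fun v => ⟨⟨_, h.col j (f v)⟩, Submodule.subset_span ⟨⟨_, h.col j (f v)⟩,
          Subtype.ext (funext fun i => (map_smul _ _ _).trans (congrArg _ (e3 v)))⟩⟩
        map_add' := fun x y => Subtype.ext (Subtype.ext (funext fun i => by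
          change ε i j • f (x + y) = ε i j • f x + ε i j • f y
          rw [map_add, smul_add]))
        map_smul' := fun t x => Subtype.ext (Subtype.ext (funext fun i => by
          change ε i j • f (t • x) = algebraMap T _ t * ε i j • f x
          rw [map_smul, smul_comm, Algebra.smul_def])) })
    (fun i j x => funext fun r => (map_smul _ _ _).trans (congrArg _ (e2 x r)))
    (fun j m => Subtype.ext (Subtype.ext (funext fun i => by
      change ε i j • f (fun r => co r (m.1.1 j)) = algebraMap T _ (ε j j) * m.1.1 i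
      rw [e1, e4, ← Algebra.smul_def]
      exact h.row m.1 i j)))
    fun m => funext fun r => by
      change ε 0 0 • co r (m.1.1 0) + ε 0 1 • co r (m.1.1 1) = co r (m.1.1 0)
      rw [← map_smul, ← map_smul, ← map_add, m.1.2]
  rwa [Fintype.card_fin] at this

end

open MvPolynomial in
theorem not_par {k σ : Type} [Field k] [Fintype σ] {u : k} (hu : u ≠ 0)
    (hu' : ∀ n, 0 < n → u ^ n ≠ 1) (J : Ideal (MvPolynomial σ k))
    (hJ : ∀ f ∈ J, ∀ n, homogeneousComponent n f ∈ J) (hX : ∃ i, ∀ n, X i ^ n ∉ J) :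
    ¬ Par k (Sph k 1) (hom J) (crd J) := by
  intro H
  obtain ⟨ϖ, h1, h2, h3, h4, h5, h6⟩ := exists_proj J hJ
  obtain ⟨ε, p, q, c, h, hc⟩ := exists_idm hu
  have g : Gr k (hom J) := ⟨hom_alg J, hom_ind J, fun c => (hom_fin J c).imp fun _ h => h.2⟩
  obtain ⟨n, hn, hr⟩ := H 1 ⟨bun ϖ h1 h2 h3 h4 ε, h.finite⟩ (h.vb ϖ h1 h2 h3 h4 _)
  obtain ⟨d, hd, h0⟩ := ((rel_eq g (tri k) (tri_unit k) hr).and (eventually_ge_atTop 0)).exists
  lift d to ℕ using h0
  have := h6 d
  have hi := h.inv_bun ϖ h1 h2 h3 h4 d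
  obtain ⟨i, hX⟩ := hX
  have pos : 0 < Module.finrank k (LinearMap.range (ϖ d)) :=
    Module.finrank_pos_iff_exists_ne_zero.2 ⟨⟨_, _, h5 d _ ⟨d, X i ^ d, rfl,
      isHomogeneous_X_pow i d, rfl⟩⟩, fun e =>
        hX d (Ideal.Quotient.eq_zero_iff_mem.1 (congrArg Subtype.val e))⟩
  rw [hc] at hi
  rw [map_nsmul] at hd
  replace hd := (congrArg (n • ·) ((FreeAbelianGroup.lift_apply_of _ _).trans
    (congrArg Additive.ofMul (dl_eq (tri_unit k) (δ := (Units.mk0 u hu)⁻¹ ^ Module.finrank k
      (LinearMap.range (ϖ d))) (by simpa using hi))))).symm.trans hd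
  rw [← ofMul_pow, ofMul_eq_zero, ← pow_mul, inv_pow, inv_eq_one] at hd
  exact hu' _ (Nat.mul_pos pos hn) (by simpa using congrArg Units.val hd)

end Pool.Agent.Ptt
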