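import Pool.Agent.P.MP_2ce3e7_ag.Ptt.G

/-! A line bundle on the triangle with a given determinant. -/

set_option autoImplicit false

namespace Pool.Agent.Ptt

open Function Filter CXD Fintype
open scoped TensorProduct Polynomial

/-- an idempotent of rank one and its factorisation on the edges -/
structure Idm {R E F : Type} [CommRing R] [CommRing E] [CommRing F] (𝒯 : Tri R E F)
    (ε : Fin 2 → Fin 2 → R) (p q : Fin 3 → Fin 2 → E) (c : Fin 3 → F) : Prop where
  rk : ∀ a b r s, ε a b * ε r s = ε a s * ε r b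
  tr : ε 0 0 + ε 1 1 = 1
  fac : ∀ i a b, 𝒯.e i (ε a b) = p i a * q i b
  ne : ∀ i, p i 0 ≠ 0
  ver : ∀ i a, 𝒯.t (q i a) = c i * 𝒯.s (q (i + 1) a)

theorem Idm.inv {R E F P ι : Type} [CommRing R] [CommRing E] [IsDomain E] [CommRing F]
    [AddCommGroup P] [Module R P] [Fintype ι] [DecidableEq ι] {𝒯 : Tri R E F} {ε p q c}
    (h : Idm 𝒯 ε p q c) (a : Fin 2 → P →ₗ[R] ι → R) (b : Fin 2 → (ι → R) →ₗ[R] P)
    (ab : ∀ i j x, a i (b j x) = ε i j • x) (ba : ∀ j m, b j (a j m) = ε j j • m)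
    (fx : ∀ m, ε 0 0 • a 0 m + ε 0 1 • a 1 m = a 0 m) : Inv 𝒯 P ((∏ i, c i) ^ card ι) := by
  have one : ∀ i, p i 0 * q i 0 + p i 1 * q i 1 = 1 := fun i => by
    rw [← h.fac, ← h.fac, ← map_add, h.tr, map_one]
  let Ω : Fin 3 → (ι → P) → Matrix ι ι E := fun i m => Matrix.of fun l r =>
    q i 0 * 𝒯.e i (a 0 (m l) r) + q i 1 * 𝒯.e i (a 1 (m l) r)
  refine ⟨ι, ‹_›, ‹_›, fun i 𝔪 hm => ?_, fun i m => (Ω i m).det, fun i => ?_, fun i 𝔪 hm => ?_,
    fun i => c i ^ card ι, fun i m => ?_, (Finset.prod_pow _ _ _).symm⟩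
  · by_contra hn
    have k : ∀ j, 𝒯.e i (ε j j) ∈ 𝔪 := fun j => not_not.1 fun e =>
      hn ⟨a j, b j, _, ⟨ba j, ab j j⟩, e⟩
    have := 𝔪.add_mem (k 0) (k 1)
    rw [← map_add, h.tr, map_one] at this
    exact hm.ne_top (𝔪.eq_top_iff_one.2 this)
  · refine exp_of (a 0) (c := 1) (pow_ne_zero (card ι) (h.ne i)) fun m => ?_
    rw [one_mul, D, RingHom.map_det, ← Matrix.det_smul]
    refine congrArg Matrix.det (Matrix.ext fun l r => ?_)
    have := congrArg (𝒯.e i) (congrFun (fx (m l)) r)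
    simp only [Pi.add_apply, Pi.smul_apply, smul_eq_mul, map_add, map_mul, h.fac] at this
    simp only [Ω, Matrix.smul_apply, Matrix.of_apply, smul_eq_mul, RingHom.mapMatrix_apply,
      Matrix.map_apply]
    linear_combination this
  · by_contra hn
    have k : ∀ j, q i j ∈ 𝔪 := fun j => hm.mem_of_pow_mem (card ι) (not_not.1 fun e =>
      hn ⟨bs (b j), by
        have : Ω i (bs (b j)) = q i j • (1 : Matrix ι ι E) := by
          ext l r
          simp only [Ω, bs, ab, Matrix.of_apply, Pi.smul_apply, smul_eq_mul, map_mul, h.fac,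
            Matrix.smul_apply, Matrix.one_apply, Pi.single_apply, apply_ite (𝒯.e i), map_one,
            map_zero, eq_comm (a := r)]
          linear_combination (q i j * if l = r then 1 else 0) * one i
        simpa only [this, Matrix.det_smul, Matrix.det_one, mul_one] using e⟩)
    exact hm.ne_top (𝔪.eq_top_iff_one.2
      (one i ▸ 𝔪.add_mem (𝔪.mul_mem_left _ (k 0)) (𝔪.mul_mem_left _ (k 1))))
  · rw [RingHom.map_det, RingHom.map_det, ← Matrix.det_smul]
    refine congrArg Matrix.det (Matrix.ext fun l r => ?_)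
    simp only [Ω, Matrix.smul_apply, Matrix.of_apply, smul_eq_mul, RingHom.mapMatrix_apply,
      Matrix.map_apply, map_add, map_mul, h.ver, 𝒯.st]
    ring

section
open Polynomial
variable (k : Type) [Field k]

/-- the three edges -/
noncomputable def edge : Fin 3 → Fin 3 → k[X] := ![![1 - X, X, 0], ![0, 1 - X, X], ![X, 0, 1 - X]]

/-- the boundary of the triangle -/
noncomputable def tri : Tri (Sph k 1) k[X] k where
  e i := Ideal.Quotient.lift _ (MvPolynomial.aeval (edge k i)).toRingHom fun a ha => by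
    refine (?_ : Ideal.span _ ≤ RingHom.ker _) ha
    rw [Ideal.span_le]
    rintro _ (rfl | rfl) <;> fin_cases i <;>
      simp [edge, Fin.sum_univ_three, Fin.prod_univ_three]
  s := evalRingHom 0
  t := evalRingHom 1
  st i r := by
    obtain ⟨r, rfl⟩ := Ideal.Quotient.mk_surjective r
    change evalRingHom 1 (MvPolynomial.aeval (edge k i) r) =
      evalRingHom 0 (MvPolynomial.aeval (edge k (i + 1)) r)
    induction r using MvPolynomial.induction_on with
    | C c => simp
    | add p q hp hq => rw [map_add, map_add, map_add, map_add, hp, hq]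
    | mul_X p j hp =>
      rw [map_mul, map_mul, map_mul, map_mul, hp]
      refine congrArg _ ?_
      fin_cases i <;> fin_cases j <;> simp [edge]

theorem tri_unit (μ : k[X]) (h : IsUnit μ) : (tri k).s μ = (tri k).t μ := by
  obtain ⟨c, -, rfl⟩ := Polynomial.isUnit_iff.1 h
  simp [tri]

variable {k}

theorem exists_idm {u : k} (hu : u ≠ 0) : ∃ ε p q c, Idm (tri k) ε p q c ∧ ∏ i, c i = u⁻¹ := by
  let x : Fin 3 → Sph k 1 := fun i => Ideal.Quotient.mk _ (MvPolynomial.X i)
  have ex : ∀ i j, (tri k).e i (x j) = edge k i j := fun i j => MvPolynomial.aeval_X _ _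
  have ec : ∀ i c, (tri k).e i (algebraMap k _ c) = C c := fun i c => MvPolynomial.aeval_C _ _
  have r1 : x 0 + x 1 + x 2 = 1 := by
    rw [← sub_eq_zero, ← Fin.sum_univ_three, ← map_sum, ← map_one (Ideal.Quotient.mk _), ← map_sub]
    exact Ideal.Quotient.eq_zero_iff_mem.2 (Ideal.subset_span (.inl rfl))
  have r2 : x 0 * x 1 * x 2 = 0 := by
    rw [← Fin.prod_univ_three, ← map_prod]
    exact Ideal.Quotient.eq_zero_iff_mem.2 (Ideal.subset_span (.inr rfl))
  obtain ⟨U, hU⟩ : ∃ U, U = algebraMap k (Sph k 1) u := ⟨_, rfl⟩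
  obtain ⟨W, hW⟩ : ∃ W, W = algebraMap k (Sph k 1) u⁻¹ := ⟨_, rfl⟩
  have r3 : U * W = 1 := by rw [hU, hW, ← map_mul, mul_inv_cancel₀ hu, map_one]
  have r4 : C u * C u⁻¹ = 1 := by rw [← map_mul, mul_inv_cancel₀ hu, map_one]
  have dt : (1 + (U - 1) ^ 2 * W * x 0 * x 1) * -((U - 1) ^ 2 * W * x 0 * x 1) =
      -((U - 1) ^ 2 * W * x 0 * (1 + (U - 1) * x 1)) * (W * x 1 * (1 + (U - 1) * x 0)) := by
    linear_combination (U - 1) ^ 2 * W * x 0 * x 1 * r3 +
      (U - 1) ^ 3 * W ^ 2 * x 0 * x 1 * r1 - (U - 1) ^ 3 * W ^ 2 * r2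
  refine ⟨![![1 + (U - 1) ^ 2 * W * x 0 * x 1, -((U - 1) ^ 2 * W * x 0 * (1 + (U - 1) * x 1))],
      ![W * x 1 * (1 + (U - 1) * x 0), -((U - 1) ^ 2 * W * x 0 * x 1)]],
    ![![1 + (C u - 1) * X, X], ![C u, 1 - X], ![1, 0]],
    ![![1 - C u⁻¹ * (C u - 1) * X, -((C u - 1) ^ 2 * C u⁻¹ * (1 - X))], ![C u⁻¹, 0],
      ![1, -((C u - 1) ^ 2 * C u⁻¹ * X)]], ![1, u⁻¹, 1], ⟨fun a b r s => ?_, by simp,
    fun i a b => ?_, fun i => ?_, fun i a => ?_⟩, by simp [Fin.prod_univ_three]⟩
  · fin_cases a <;> fin_cases b <;> fin_cases r <;> fin_cases s <;>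
      simp only [Fin.zero_eta, Fin.mk_one, Matrix.cons_val_zero, Matrix.cons_val_one] <;>
      first | exact mul_comm _ _ | linear_combination dt | linear_combination -dt
  · fin_cases i <;> fin_cases a <;> fin_cases b <;>
      simp only [Fin.zero_eta, Fin.mk_one, Fin.reduceFinMk, Matrix.cons_val, map_add, map_mul,
        map_neg, map_pow, map_sub, map_one, hU, hW, ex, ec, edge] <;>
      first
        | ring1
        | linear_combination (C u - 1) * X * r4
        | linear_combination X * r4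
        | linear_combination -r4
  · fin_cases i
    · exact fun e => by simpa using congrArg (Polynomial.eval 0) e
    · simpa using hu
    · simp
  · fin_cases i <;> fin_cases a <;> simp [tri]
    field_simp
    ring

end

end Pool.Agent.Ptt
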